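import Mathlib

/-!
# MP_dc922b_co: spherical parking functions by degree = uprooted trees by surface inversions
(crowd blueprint, helper228)

Proof in one paragraph. Both generating functions `X_m(q)` (spherical parking functions of length
`m` with weight `q ^ (C(m,2) + 1 - degree)`; uprooted trees on `m` vertices with weight
`q ^ (surface inversions)`) satisfy, for `n ≥ 1` and real `q > 1`,
`∑_{m=1}^n C(n,m) q^C(n-m,2) (q-1)^m X_m = (q^n - 1) q^C(n-1,2)`,   (**)
which determines `X_n`. For parking functions: every `a : Fin n → {1,2,...}` has a unique set `M`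
of positions on which it is prime with all other entries `≥ max 2 (|M|+1)`; sum `p^(∑ a)`, `p = 1/q`.
For trees: for a forest order on `V` with all roots in a lower set `S` of `V`, splitting off the tree
of the largest root gives, by induction on `|V|`,
`∑_{W ⊆ V} (q-1)^|W| q^C(|V|-|W|,2) h(W,S) = q^(|S| + C(|V|,2))`, and (**) follows by summing over the
root `r` (`V` = all but `r`, `S` = the vertices below `r`).

A forest on `V` is encoded by its relation `A` = set of pairs (proper ancestor, descendant).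
Rows `SPF.TaskXxx` of pptask. Prove `theorem main : TaskXxx` in
`Pool/Agent/Q228/SPF/TaskXxx.lean`, namespace `Pool.Agent.Q228.SPF.TaskXxx`.
All dependencies are already hypotheses inside the statements.
-/

set_option autoImplicit false

open Finset
open scoped Classical

noncomputable section

namespace Pool.Agent.Q228.SPF

/-! ## Parking functions -/

/-- spherical parking functions: nondecreasing rearrangement `c_1 = 1`, `c_i < i` for `i ≥ 2`. -/
def Spherical {n : ℕ} (a : Fin n → ℕ) : Prop :=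
  ∃ σ : Equiv.Perm (Fin n), Monotone (a ∘ σ) ∧
    ∀ i : Fin n, (i.val = 0 → a (σ i) = 1) ∧ (0 < i.val → a (σ i) < i.val + 1)

/-- counting form on a set `M` of positions. -/
def PrimeOn {n : ℕ} (M : Finset (Fin n)) (a : Fin n → ℕ) : Prop :=
  (∀ i ∈ M, 1 ≤ a i ∧ a i ≤ M.card) ∧
    ∀ j : ℕ, 1 ≤ j → j < M.card → j + 1 ≤ (M.filter fun i => a i ≤ j).card

/-- the prime sequences of length `n`. -/
def SP (n : ℕ) : Finset (Fin n → ℕ) :=
  (Fintype.piFinset fun _ : Fin n => Finset.Icc 1 n).filter fun a => PrimeOn Finset.univ a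

/-- weighted number of prime sequences. -/
def SW (n : ℕ) (w : ℕ → ℝ) : ℝ := ∑ a ∈ SP n, ∏ i, w (a i)

/-- the generating function of the spherical parking functions. -/
def Sg (q : ℝ) (n : ℕ) : ℝ := ∑ a ∈ SP n, q ^ (n.choose 2 + 1 - ∑ i, a i)

/-- Existence and uniqueness of the prime part. Hint: let `j ≥ 1` be least with
`#{a i ≤ j} ≤ j` (`j = n` works); `M = {i : a i ≤ j}`. Its cardinality is `j`, or `j = 1` and `M = ∅`.
Uniqueness: if `M` works and `m = #M ≥ 1`, then `M = {a i ≤ m}` and `m` is the least `j`. -/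
def TaskUnique : Prop := ∀ (n : ℕ) (a : Fin n → ℕ), (∀ i, 1 ≤ a i) →
  ∃! M : Finset (Fin n), PrimeOn M a ∧ ∀ i, i ∉ M → max 2 (M.card + 1) ≤ a i

/-- The sum over the sequences with prime part on a fixed `M`. Hint: a function on `Fin n` is a pair
of functions on `M` and on the complement (`Equiv.piEquivPiSubtypeProd`, `Finset.prod_univ_sum` /
`Finset.sum_prod_piFinset`); reindex `M` by `M.orderEmbOfFin` or `M.equivFin`. -/
def TaskFixed : Prop := ∀ (n L : ℕ) (w : ℕ → ℝ) (M : Finset (Fin n)), n ≤ L →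
  ∑ a ∈ (Fintype.piFinset fun _ : Fin n => Finset.Icc 1 L).filter
      (fun a => PrimeOn M a ∧ ∀ i, i ∉ M → max 2 (M.card + 1) ≤ a i), ∏ i, w (a i) =
    SW M.card w * (∑ c ∈ Finset.Icc (max 2 (M.card + 1)) L, w c) ^ (n - M.card)

/-- Hint: `(∑ w)^n = ∑_a ∏ w (a i)` (`Finset.sum_pow'`-like: `Finset.prod_univ_sum`), partition by the
unique `M`, then group the `M` by cardinality (`Finset.sum_powerset_apply_card`). -/
def TaskFin : Prop := TaskUnique → TaskFixed → ∀ (n L : ℕ) (w : ℕ → ℝ), n ≤ L →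
  (∑ c ∈ Finset.Icc 1 L, w c) ^ n = ∑ m ∈ Finset.range (n + 1), (n.choose m : ℝ) * SW m w *
    (∑ c ∈ Finset.Icc (max 2 (m + 1)) L, w c) ^ (n - m)

/-- `L → ∞` with `w c = p ^ c` (geometric sums). The hypothesis is the conclusion of TaskFin. -/
def TaskLim : Prop := ∀ (n : ℕ) (p : ℝ), 0 < p → p < 1 →
  (∀ L : ℕ, n ≤ L → (∑ c ∈ Finset.Icc 1 L, p ^ c) ^ n =
    ∑ m ∈ Finset.range (n + 1), (n.choose m : ℝ) * SW m (fun c => p ^ c) *
      (∑ c ∈ Finset.Icc (max 2 (m + 1)) L, p ^ c) ^ (n - m)) →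
  (p / (1 - p)) ^ n = ∑ m ∈ Finset.range (n + 1), (n.choose m : ℝ) * SW m (fun c => p ^ c) *
    (p ^ max 2 (m + 1) / (1 - p)) ^ (n - m)

/-- degrees: `∑ a ≤ C(n,2) + 1`. Hint: `∑ a i = ∑_{j ≥ 0} #{a i > j} ≤ n + ∑_{1 ≤ j < n} (n-j-1)`. -/
def TaskBound : Prop := ∀ n : ℕ, 1 ≤ n → ∀ a ∈ SP n, ∑ i, a i ≤ n.choose 2 + 1

/-- `SW` at `p = 1/q` in terms of `Sg`. -/
def TaskSW : Prop := TaskBound → ∀ (n : ℕ) (q : ℝ), 1 ≤ n → 1 < q →
  SW n (fun c => (q⁻¹) ^ c) = (q⁻¹) ^ (n.choose 2 + 1) * Sg q n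

/-- the identity (**) for parking functions. Hint: multiply the limit identity by
`((1-p)/p)^n`; the term `m = 0` is `p^n` (`SW 0 w = 1`);
`C(n,2) = C(m,2) + C(n-m,2) + m(n-m)`, `C(n,2) + 1 - n = C(n-1,2)`. -/
def TaskS : Prop := (∀ (n : ℕ) (p : ℝ), 0 < p → p < 1 →
    (p / (1 - p)) ^ n = ∑ m ∈ Finset.range (n + 1), (n.choose m : ℝ) * SW m (fun c => p ^ c) *
      (p ^ max 2 (m + 1) / (1 - p)) ^ (n - m)) →
  (∀ (n : ℕ) (q : ℝ), 1 ≤ n → 1 < q →
    SW n (fun c => (q⁻¹) ^ c) = (q⁻¹) ^ (n.choose 2 + 1) * Sg q n) →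
  ∀ (n : ℕ) (q : ℝ), 1 ≤ n → 1 < q →
    ∑ m ∈ Finset.Icc 1 n, (n.choose m : ℝ) * q ^ (n - m).choose 2 * (q - 1) ^ m * Sg q m =
      (q ^ n - 1) * q ^ (n - 1).choose 2

/-- `Spherical` is `PrimeOn univ` (n ≥ 1). Hint: sorted sequence, `#{a i ≤ j} ≥ j + 1` iff
`c_{j+1} ≤ j` (`Tuple.sort`). -/
def TaskSph : Prop := ∀ (n : ℕ), 1 ≤ n → ∀ a : Fin n → ℕ, Spherical a ↔ a ∈ SP n

/-! ## Forests -/

/-- `A` is the relation (proper ancestor, descendant) of a rooted forest on `V` all of whose roots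
are in `S`. -/
def IsFo {α : Type} [LinearOrder α] (V S : Finset α) (A : Finset (α × α)) : Prop :=
  A ⊆ V ×ˢ V ∧ (∀ x ∈ A, x.1 ≠ x.2) ∧ (∀ a b c, (a, b) ∈ A → (b, c) ∈ A → (a, c) ∈ A) ∧
    (∀ a b c, (a, c) ∈ A → (b, c) ∈ A → a = b ∨ (a, b) ∈ A ∨ (b, a) ∈ A) ∧
    ∀ v ∈ V, (∀ u, (u, v) ∉ A) → v ∈ S

def fo {α : Type} [LinearOrder α] (V S : Finset α) : Finset (Finset (α × α)) :=
  (V ×ˢ V).powerset.filter fun A => IsFo V S A

/-- number of inversions. -/
def inv {α : Type} [LinearOrder α] (A : Finset (α × α)) : ℕ := (A.filter fun x => x.2 < x.1).card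

def h {α : Type} [LinearOrder α] (q : ℝ) (V S : Finset α) : ℝ := ∑ A ∈ fo V S, q ^ inv A

/-- join of a tree with root `k` (forest `A1` on `B` below `k`) and a forest `A2`. -/
def join {α : Type} [LinearOrder α] (k : α) (B : Finset α) (A1 A2 : Finset (α × α)) :
    Finset (α × α) := A1 ∪ ({k} ×ˢ B) ∪ A2

/-- The join is a forest, with additive inversions. -/
def TaskJoin : Prop := ∀ (α : Type) [LinearOrder α] (V S B : Finset α) (k : α)
  (A1 A2 : Finset (α × α)), k ∈ V → k ∈ S → B ⊆ V.erase k → A1 ∈ fo B B →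
  A2 ∈ fo ((V.erase k) \ B) (S.filter (· < k)) →
  join k B A1 A2 ∈ fo V S ∧
    inv (join k B A1 A2) = inv A1 + (B.filter (· < k)).card + inv A2

/-- The data are determined by the join: `k` is the largest root, `B` its descendants,
`A1`, `A2` the restrictions. -/
def TaskInj : Prop := ∀ (α : Type) [LinearOrder α] (V S B B' : Finset α) (k k' : α)
  (A1 A2 A1' A2' : Finset (α × α)), k ∈ V → k ∈ S → B ⊆ V.erase k → A1 ∈ fo B B →
  A2 ∈ fo ((V.erase k) \ B) (S.filter (· < k)) →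
  k' ∈ V → k' ∈ S → B' ⊆ V.erase k' → A1' ∈ fo B' B' →
  A2' ∈ fo ((V.erase k') \ B') (S.filter (· < k')) →
  join k B A1 A2 = join k' B' A1' A2' → k = k' ∧ B = B' ∧ A1 = A1' ∧ A2 = A2'

/-- Every forest on a nonempty `V` is such a join. Hint: a finite forest has a root (a minimal
element of the relation); `k` = largest root, `B = {v : (k, v) ∈ A}`. -/
def TaskSurj : Prop := ∀ (α : Type) [LinearOrder α] (V S : Finset α) (A : Finset (α × α)),
  V.Nonempty → A ∈ fo V S → ∃ (k : α) (B : Finset α) (A1 A2 : Finset (α × α)),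
    k ∈ V ∧ k ∈ S ∧ B ⊆ V.erase k ∧ A1 ∈ fo B B ∧
    A2 ∈ fo ((V.erase k) \ B) (S.filter (· < k)) ∧ A = join k B A1 A2

/-- The recursion. Hint: `Finset.sum_bij` from the sigma type of `(k, B, A1, A2)`. -/
def TaskRec : Prop := TaskJoin → TaskInj → TaskSurj →
  ∀ (α : Type) [LinearOrder α] (q : ℝ) (V S : Finset α), V.Nonempty →
  h q V S = ∑ k ∈ V ∩ S, ∑ B ∈ (V.erase k).powerset,
    q ^ (B.filter (· < k)).card * h q B B * h q ((V.erase k) \ B) (S.filter (· < k))

/-- `h` of the empty set is 1. -/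
def TaskEmpty : Prop := ∀ (α : Type) [LinearOrder α] (q : ℝ) (S : Finset α), h q ∅ S = 1

/-- The star identity. Strong induction on `#V`: the term `W = ∅` gives `q^C(#V,2)`; in the others use
the recursion, exchange the sums (W ∋ k, B ⊆ W \ k, W' = W \ k \ B ⊆ V \ k \ B), apply the induction
hypothesis to `V \ k \ B` and the lower set of the elements `< k` (all of them are in `S`), then to
`V \ k` with `S = V \ k`; finally `1 + (q-1) ∑_{k ∈ S} q^#{v ∈ V, v < k} = q^#S`. (`h q W S` only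
depends on `W ∩ S`; this is immediate from the definition.) -/
def TaskStar : Prop :=
  (∀ (α : Type) [LinearOrder α] (q : ℝ) (V S : Finset α), V.Nonempty →
    h q V S = ∑ k ∈ V ∩ S, ∑ B ∈ (V.erase k).powerset,
      q ^ (B.filter (· < k)).card * h q B B * h q ((V.erase k) \ B) (S.filter (· < k))) →
  TaskEmpty →
  ∀ (α : Type) [LinearOrder α] (q : ℝ) (V S : Finset α),
    (∀ s ∈ S, ∀ v ∈ V, v < s → v ∈ S) →
    ∑ W ∈ V.powerset, (q - 1) ^ W.card * q ^ (V.card - W.card).choose 2 * h q W S =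
      q ^ ((V ∩ S).card + V.card.choose 2)

/-- The sum over a lower set used in TaskStar. -/
def TaskGeom : Prop := ∀ (α : Type) [LinearOrder α] (q : ℝ) (V S : Finset α),
  (∀ s ∈ S, ∀ v ∈ V, v < s → v ∈ S) →
  1 + (q - 1) * ∑ k ∈ V ∩ S, q ^ (V.filter (· < k)).card = q ^ (V ∩ S).card

/-- `h` only depends on the order type. -/
def TaskIso : Prop := ∀ (α β : Type) [LinearOrder α] [LinearOrder β] (e : α → β) (q : ℝ)
  (V S : Finset α), StrictMono e → h q (V.image e) (S.image e) = h q V S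

/-- generating function of the uprooted trees on a set `W`. -/
def U {α : Type} [LinearOrder α] (q : ℝ) (W : Finset α) : ℝ :=
  ∑ r ∈ W, h q (W.erase r) (W.filter (· < r))

def Ug (q : ℝ) (n : ℕ) : ℝ := U q (Finset.univ : Finset (Fin n))

/-- `U` of a finite set of vertices only depends on its size (`Finset.orderEmbOfFin`). -/
def TaskUCard : Prop := TaskIso → ∀ (n : ℕ) (q : ℝ) (W : Finset (Fin n)), U q W = Ug q W.card

/-- (**) for trees. Hint: `∑_m C(n,m) F(m) = ∑_{W ⊆ univ} F(#W)`, expand `U q W`, exchange the sums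
over `W` and `r ∈ W`, `W' = W \ r`, apply the star identity for `V = univ \ r`, `S = {v < r}`; finally
`(q-1) ∑_{r < n} q^r = q^n - 1`. -/
def TaskU : Prop :=
  (∀ (α : Type) [LinearOrder α] (q : ℝ) (V S : Finset α),
    (∀ s ∈ S, ∀ v ∈ V, v < s → v ∈ S) →
    ∑ W ∈ V.powerset, (q - 1) ^ W.card * q ^ (V.card - W.card).choose 2 * h q W S =
      q ^ ((V ∩ S).card + V.card.choose 2)) →
  (∀ (n : ℕ) (q : ℝ) (W : Finset (Fin n)), U q W = Ug q W.card) →
  ∀ (n : ℕ) (q : ℝ), 1 ≤ n → 1 < q →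
    ∑ m ∈ Finset.Icc 1 n, (n.choose m : ℝ) * q ^ (n - m).choose 2 * (q - 1) ^ m * Ug q m =
      (q ^ n - 1) * q ^ (n - 1).choose 2

/-- (**) determines the sequence. -/
def TaskDet : Prop := ∀ (q : ℝ) (X Y R : ℕ → ℝ), 1 < q →
  (∀ n : ℕ, 1 ≤ n →
    ∑ m ∈ Finset.Icc 1 n, (n.choose m : ℝ) * q ^ (n - m).choose 2 * (q - 1) ^ m * X m = R n) →
  (∀ n : ℕ, 1 ≤ n →
    ∑ m ∈ Finset.Icc 1 n, (n.choose m : ℝ) * q ^ (n - m).choose 2 * (q - 1) ^ m * Y m = R n) →
  ∀ n : ℕ, 1 ≤ n → X n = Y n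

/-- equal generating functions have equal coefficients (`Polynomial.eq_of_infinite_eval_eq`). -/
def TaskCoeff : Prop := ∀ (ι κ : Type) (s : Finset ι) (t : Finset κ) (f : ι → ℕ) (g : κ → ℕ),
  (∀ q : ℝ, 1 < q → ∑ x ∈ s, q ^ f x = ∑ y ∈ t, q ^ g y) →
  ∀ k : ℕ, (s.filter fun x => f x = k).card = (t.filter fun y => g y = k).card

/-! ## Trees as parent functions -/

/-- `p` is the parent function of a tree with root `r` (`p r = r`), all children of the root are
smaller than the root. -/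
def IsUprooted {n : ℕ} (r : Fin n) (p : Fin n → Fin n) : Prop :=
  p r = r ∧ (∀ v, ∃ k : ℕ, p^[k] v = r) ∧ ∀ v, v ≠ r → p v = r → v < r

/-- `a` is a proper ancestor of `b`. -/
def Anc {n : ℕ} (p : Fin n → Fin n) (a b : Fin n) : Prop := a ≠ b ∧ ∃ k : ℕ, p^[k] b = a

/-- the ancestor relation outside the root. -/
def ancS {n : ℕ} (r : Fin n) (p : Fin n → Fin n) : Finset (Fin n × Fin n) :=
  Finset.univ.filter fun x => x.1 ≠ r ∧ x.2 ≠ r ∧ Anc p x.1 x.2

/-- number of surface inversions. -/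
def surf {n : ℕ} (r : Fin n) (p : Fin n → Fin n) : ℕ :=
  (Finset.univ.filter fun x : Fin n × Fin n =>
    x.1 ≠ r ∧ x.2 ≠ r ∧ Anc p x.1 x.2 ∧ x.2 < x.1).card

/-- the ancestor relation is a forest. -/
def TaskAnc : Prop := ∀ (n : ℕ) (r : Fin n) (p : Fin n → Fin n), IsUprooted r p →
  ancS r p ∈ fo (Finset.univ.erase r) (Finset.univ.filter (· < r))

/-- the ancestor relation determines the parent function. -/
def TaskAncInj : Prop := ∀ (n : ℕ) (r : Fin n) (p p' : Fin n → Fin n), IsUprooted r p →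
  IsUprooted r p' → ancS r p = ancS r p' → p = p'

/-- every forest order comes from a parent function: `p v` = the ancestor of `v` with the largest
number of ancestors (the closest one), `r` if there is none. -/
def TaskAncSurj : Prop := ∀ (n : ℕ) (r : Fin n) (A : Finset (Fin n × Fin n)),
  A ∈ fo (Finset.univ.erase r) (Finset.univ.filter (· < r)) →
  ∃ p : Fin n → Fin n, IsUprooted r p ∧ ancS r p = A

/-- the number of uprooted trees by surface inversions. Hint: bijection with the sigma type,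
`surf r p = inv (ancS r p)`. -/
def TaskTree : Prop := TaskAnc → TaskAncInj → TaskAncSurj → ∀ (n k : ℕ),
  Nat.card {T : Fin n × (Fin n → Fin n) // IsUprooted T.1 T.2 ∧ surf T.1 T.2 = k} =
    (((Finset.univ : Finset (Fin n)).sigma fun r =>
      fo (Finset.univ.erase r) (Finset.univ.filter (· < r))).filter fun x => inv x.2 = k).card

/-- the number of spherical parking functions by degree. -/
def TaskPark : Prop := TaskSph → TaskBound → ∀ (n k : ℕ), 1 ≤ n →
  Nat.card {a : Fin n → ℕ // Spherical a ∧ ∑ i, a i + k = n.choose 2 + 1} =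
    ((SP n).filter fun a => n.choose 2 + 1 - ∑ i, a i = k).card

end Pool.Agent.Q228.SPF
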