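import Pool.Agent.Q228.SPF.Stmts

set_option autoImplicit false

open Finset

namespace Pool.Agent.Q228.SPF.TaskAnc

private theorem iter_root {n : ℕ} {r : Fin n} {p : Fin n → Fin n} (hr : p r = r) (k : ℕ) : p^[k] r = r :=
  Function.iterate_fixed hr k

private theorem noper {n : ℕ} {r : Fin n} {p : Fin n → Fin n} (hr : p r = r) (hall : ∀ v, ∃ k : ℕ, p^[k] v = r)
    {c : Fin n} {k : ℕ} (hk : 0 < k) (hc : p^[k] c = c) : c = r := by
  obtain ⟨m, hm⟩ := hall c
  have h1 : p^[k * m] c = c := by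
    rw [Function.iterate_mul]
    exact Function.iterate_fixed hc m
  have h2 : k * m = (k * m - m) + m := by
    have : m ≤ k * m := Nat.le_mul_of_pos_left m hk
    omega
  rw [h2, Function.iterate_add_apply, hm, iter_root hr] at h1
  exact h1.symm

theorem main : Pool.Agent.Q228.SPF.TaskAnc := by
  classical
  intro n r p hp
  obtain ⟨hr, hall, hch⟩ := hp
  have mem : ∀ a b : Fin n, (a, b) ∈ ancS r p ↔ a ≠ r ∧ b ≠ r ∧ a ≠ b ∧ ∃ k : ℕ, p^[k] b = a := by
    intro a b
    refine Finset.mem_filter.trans ?_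
    constructor
    · rintro ⟨-, h1, h2, h3, h4⟩
      exact ⟨h1, h2, h3, h4⟩
    · rintro ⟨h1, h2, h3, h4⟩
      exact ⟨Finset.mem_univ _, h1, h2, h3, h4⟩
  have hsub : ancS r p ⊆ (Finset.univ.erase r) ×ˢ (Finset.univ.erase r) := by
    rintro ⟨a, b⟩ h
    rw [mem] at h
    rw [Finset.mem_product, Finset.mem_erase, Finset.mem_erase]
    exact ⟨⟨h.1, Finset.mem_univ _⟩, ⟨h.2.1, Finset.mem_univ _⟩⟩
  unfold fo
  rw [Finset.mem_filter, Finset.mem_powerset]
  refine ⟨hsub, hsub, ?_, ?_, ?_, ?_⟩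
  · rintro ⟨a, b⟩ h
    rw [mem] at h
    exact h.2.2.1
  · intro a b c hab hbc
    rw [mem] at hab hbc ⊢
    obtain ⟨ha, hb, hne, k, hk⟩ := hab
    obtain ⟨-, hc, hne', l, hl⟩ := hbc
    have hkl : p^[k + l] c = a := by rw [Function.iterate_add_apply, hl, hk]
    refine ⟨ha, hc, ?_, k + l, hkl⟩
    intro hac
    have hl0 : 0 < l := by
      rcases Nat.eq_zero_or_pos l with h0 | h0
      · exfalso
        rw [h0] at hl
        exact hne' hl.symm
      · exact h0
    exact hc (noper hr hall (k := k + l) (by omega) (hkl.trans hac))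
  · intro a b c hac hbc
    rw [mem] at hac hbc
    obtain ⟨ha, hc, hne, k, hk⟩ := hac
    obtain ⟨hb, -, hne', l, hl⟩ := hbc
    by_cases hab : a = b
    · exact Or.inl hab
    · rcases le_total k l with hkl | hkl
      · refine Or.inr (Or.inr ?_)
        rw [mem]
        refine ⟨hb, ha, fun h => hab h.symm, l - k, ?_⟩
        rw [← hk, ← Function.iterate_add_apply, Nat.sub_add_cancel hkl, hl]
      · refine Or.inr (Or.inl ?_)
        rw [mem]
        refine ⟨ha, hb, hab, k - l, ?_⟩
        rw [← hl, ← Function.iterate_add_apply, Nat.sub_add_cancel hkl, hk]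
  · intro v hv hno
    rw [Finset.mem_filter]
    refine ⟨Finset.mem_univ _, ?_⟩
    have hvr : v ≠ r := (Finset.mem_erase.1 hv).1
    by_cases hpv : p v = r
    · exact hch v hvr hpv
    · exfalso
      apply hno (p v)
      rw [mem]
      refine ⟨hpv, hvr, ?_, 1, rfl⟩
      intro h
      exact hvr (noper hr hall (k := 1) one_pos h)

end Pool.Agent.Q228.SPF.TaskAnc
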