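import Pool.Agent.Q228.SPF.Stmts

open Finset
open scoped Classical

namespace Pool.Agent.Q228.SPF.TaskAncInj

open Pool.Agent.Q228.SPF

lemma cyc {n : ℕ} {p : Fin n → Fin n} {r u : Fin n} (hr : p r = r) (hk : ∃ k : ℕ, p^[k] u = r)
    {m : ℕ} (hm : 0 < m) (h : p^[m] u = u) : u = r := by
  obtain ⟨k, hk⟩ := hk
  have h1 : p^[m * k] u = u := by
    rw [Function.iterate_mul]
    exact Function.iterate_fixed h k
  have h2 : k ≤ m * k := Nat.le_mul_of_pos_left k hm
  obtain ⟨j, hj⟩ := Nat.exists_eq_add_of_le h2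
  rw [hj, add_comm, Function.iterate_add_apply, hk, Function.iterate_fixed hr] at h1
  exact h1.symm

lemma step {n : ℕ} {p p' : Fin n → Fin n} {r v : Fin n} (hp : IsUprooted r p)
    (hp' : IsUprooted r p') (h : ∀ a b, a ≠ r → b ≠ r → Anc p a b → Anc p' a b) (hv : v ≠ r)
    (hpv : p v ≠ r) : p' v ≠ r ∧ (p v = p' v ∨ Anc p' (p v) (p' v)) := by
  have hne : p v ≠ v := fun he => hv (cyc hp.1 (hp.2.1 v) one_pos (by simpa using he))
  obtain ⟨_, k, hk⟩ := h (p v) v hpv hv ⟨hne, 1, rfl⟩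
  rcases k with _ | k
  · exact absurd hk (by simpa using hne.symm)
  · rw [Function.iterate_succ_apply] at hk
    refine ⟨fun he => ?_, ?_⟩
    · rw [he, Function.iterate_fixed hp'.1] at hk
      exact hpv hk.symm
    · by_cases he : p v = p' v
      · exact Or.inl he
      · exact Or.inr ⟨he, k, hk⟩

theorem main : Pool.Agent.Q228.SPF.TaskAncInj := by
  intro n r p p' hp hp' hA
  have hmem : ∀ a b : Fin n, a ≠ r → b ≠ r → (Anc p a b ↔ Anc p' a b) := by
    intro a b ha hb
    have h1 : (a, b) ∈ ancS r p ↔ (a, b) ∈ ancS r p' := by rw [hA]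
    simpa [ancS, ha, hb] using h1
  funext v
  by_cases hv : v = r
  · rw [hv, hp.1, hp'.1]
  by_cases hpv : p v = r
  · by_contra hne
    have hpv' : p' v ≠ r := fun he => hne (hpv.trans he.symm)
    exact (step hp' hp (fun a b ha hb => (hmem a b ha hb).2) hv hpv').1 hpv
  · obtain ⟨h1, h2⟩ := step hp hp' (fun a b ha hb => (hmem a b ha hb).1) hv hpv
    obtain ⟨_, h3⟩ := step hp' hp (fun a b ha hb => (hmem a b ha hb).2) hv h1
    rcases h2 with h2 | h2
    · exact h2
    rcases h3 with h3 | h3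
    · exact h3.symm
    obtain ⟨hne, i, hi⟩ := (hmem _ _ hpv h1).2 h2
    obtain ⟨_, j, hj⟩ := h3
    exfalso
    have hi0 : i ≠ 0 := by
      rintro rfl
      exact hne (by simpa using hi.symm)
    have hc : p^[i + j] (p v) = p v := by rw [Function.iterate_add_apply, hj, hi]
    exact hpv (cyc hp.1 (hp.2.1 _) (by omega) hc)

end Pool.Agent.Q228.SPF.TaskAncInj
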