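import Pool.Agent.Q228.SPF.Stmts

set_option autoImplicit false

open Finset
open scoped Classical

namespace Pool.Agent.Q228.SPF.TaskAncSurj

open Pool.Agent.Q228.SPF

theorem main : Pool.Agent.Q228.SPF.TaskAncSurj := by
  intro n r A hA
  have hA' : IsFo (Finset.univ.erase r) (Finset.univ.filter (· < r)) A := (Finset.mem_filter.1 hA).2
  obtain ⟨hV, hne, htr, hch, hroot⟩ := hA'
  let U : Fin n → Finset (Fin n) := fun v => Finset.univ.filter fun u => (u, v) ∈ A
  have hU : ∀ u v, u ∈ U v ↔ (u, v) ∈ A := by intro u v; simp [U]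
  have hVr : ∀ u v, (u, v) ∈ A → u ≠ r ∧ v ≠ r := by
    intro u v h
    have h1 := Finset.mem_product.1 (hV h)
    exact ⟨(Finset.mem_erase.1 h1.1).1, (Finset.mem_erase.1 h1.2).1⟩
  have hlt : ∀ u v, (u, v) ∈ A → (U u).card < (U v).card := by
    intro u v huv
    apply Finset.card_lt_card
    rw [Finset.ssubset_iff_of_subset]
    · exact ⟨u, (hU u v).2 huv, fun h => hne _ ((hU u u).1 h) rfl⟩
    · intro w hw
      exact (hU w v).2 (htr _ _ _ ((hU w u).1 hw) huv)
  have hex : ∀ v, ∃ u, (v = r → u = r) ∧ (v ≠ r → (∀ w, (w, v) ∉ A) → u = r) ∧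
      (v ≠ r → (∃ w, (w, v) ∈ A) → (u, v) ∈ A ∧ ∀ w, (w, v) ∈ A → w = u ∨ (w, u) ∈ A) := by
    intro v
    by_cases hv : v = r
    · exact ⟨r, fun _ => rfl, fun h => absurd hv h, fun h => absurd hv h⟩
    · by_cases hw : ∃ w, (w, v) ∈ A
      · obtain ⟨u, hu, hmax⟩ := Finset.exists_max_image (U v) (fun u => (U u).card) (by
          obtain ⟨w, hw⟩ := hw
          exact ⟨w, (hU w v).2 hw⟩)
        refine ⟨u, fun h => absurd h hv, fun _ h => ?_, fun _ _ => ⟨(hU u v).1 hu, fun w hwv => ?_⟩⟩
        · obtain ⟨w, hw⟩ := hw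
          exact absurd hw (h w)
        · rcases hch w u v hwv ((hU u v).1 hu) with h | h | h
          · exact Or.inl h
          · exact Or.inr h
          · exact absurd (hlt u w h) (not_lt.2 (hmax w ((hU w v).2 hwv)))
      · exact ⟨r, fun _ => rfl, fun _ _ => rfl, fun _ h => absurd h hw⟩
  choose p hp1 hp2 hp3 using hex
  refine ⟨p, ⟨hp1 r rfl, ?_, ?_⟩, ?_⟩
  · have key : ∀ m : ℕ, ∀ v, (U v).card ≤ m → ∃ k : ℕ, p^[k] v = r := by
      intro m
      induction m with
      | zero =>
        intro v hv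
        by_cases h : v = r
        · exact ⟨0, h⟩
        · refine ⟨1, hp2 v h fun w hw => ?_⟩
          have := hlt w v hw
          omega
      | succ m ih =>
        intro v hv
        by_cases h : v = r
        · exact ⟨0, h⟩
        · by_cases hw : ∃ w, (w, v) ∈ A
          · have h1 := (hp3 v h hw).1
            obtain ⟨k, hk⟩ := ih (p v) (by have := hlt _ _ h1; omega)
            exact ⟨k + 1, by rw [Function.iterate_succ_apply]; exact hk⟩
          · exact ⟨1, hp2 v h fun w hw' => hw ⟨w, hw'⟩⟩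
    intro v
    exact key _ v le_rfl
  · intro v hv hpv
    by_cases hw : ∃ w, (w, v) ∈ A
    · have h1 := (hp3 v hv hw).1
      exact absurd hpv (hVr _ _ h1).1
    · have := hroot v (Finset.mem_erase.2 ⟨hv, Finset.mem_univ _⟩) (fun u hu => hw ⟨u, hu⟩)
      exact (Finset.mem_filter.1 this).2
  · have k1 : ∀ (k : ℕ) (b : Fin n), b ≠ r → p^[k] b ≠ r → p^[k] b = b ∨ (p^[k] b, b) ∈ A := by
      intro k
      induction k with
      | zero => intro b _ _; exact Or.inl rfl
      | succ k ih =>
        intro b hb hk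
        rw [Function.iterate_succ_apply'] at hk ⊢
        have hc : p^[k] b ≠ r := fun h => hk (hp1 _ h)
        have hw : ∃ w, (w, p^[k] b) ∈ A := by
          by_contra hcon
          exact hk (hp2 _ hc fun w hw => hcon ⟨w, hw⟩)
        have h1 := (hp3 _ hc hw).1
        right
        rcases ih b hb hc with h | h
        · rw [h] at h1 ⊢
          exact h1
        · exact htr _ _ _ h1 h
    have k2 : ∀ (m : ℕ) (a b : Fin n), (U b).card ≤ m → (a, b) ∈ A → ∃ k : ℕ, p^[k] b = a := by
      intro m
      induction m with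
      | zero =>
        intro a b hb hab
        have := hlt a b hab
        omega
      | succ m ih =>
        intro a b hb hab
        obtain ⟨h1, h2⟩ := hp3 b (hVr _ _ hab).2 ⟨a, hab⟩
        rcases h2 a hab with h | h
        · exact ⟨1, h.symm⟩
        · obtain ⟨k, hk⟩ := ih a (p b) (by have := hlt _ _ h1; omega) h
          exact ⟨k + 1, by rw [Function.iterate_succ_apply]; exact hk⟩
    ext ⟨a, b⟩
    simp only [ancS, Anc, Finset.mem_filter, Finset.mem_univ, true_and]
    constructor
    · rintro ⟨ha, hb, hab, k, hk⟩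
      have h1 := k1 k b hb (by rw [hk]; exact ha)
      rw [hk] at h1
      rcases h1 with h | h
      · exact absurd h hab
      · exact h
    · intro hab
      exact ⟨(hVr _ _ hab).1, (hVr _ _ hab).2, hne _ hab, k2 _ a b le_rfl hab⟩

end Pool.Agent.Q228.SPF.TaskAncSurj
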