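import Pool.Agent.Q228.SPF.Stmts

set_option autoImplicit false

namespace Pool.Agent.Q228.SPF.TaskBound

open Finset

theorem main : Pool.Agent.Q228.SPF.TaskBound := by
  intro n hn a ha
  obtain ⟨m, rfl⟩ : ∃ m, n = m + 1 := ⟨n - 1, by omega⟩
  simp only [SP, Finset.mem_filter, Fintype.mem_piFinset, Finset.mem_Icc, PrimeOn,
    Finset.card_univ, Fintype.card_fin] at ha
  obtain ⟨h1, h2, h3⟩ := ha
  have e1 : ∀ i, a i = ∑ j ∈ Finset.range (m+1), if j < a i then 1 else 0 := by
    intro i
    rw [← Finset.card_filter]
    have : (Finset.range (m+1)).filter (fun j => j < a i) = Finset.range (a i) := by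
      ext j; simp only [Finset.mem_filter, Finset.mem_range]; have := (h1 i).2; omega
    rw [this, Finset.card_range]
  have e2 : ∑ i, a i = ∑ j ∈ Finset.range (m+1), (Finset.univ.filter (fun i => j < a i)).card := by
    calc ∑ i, a i = ∑ i, ∑ j ∈ Finset.range (m+1), (if j < a i then 1 else 0) :=
          Finset.sum_congr rfl (fun i _ => e1 i)
      _ = ∑ j ∈ Finset.range (m+1), ∑ i, (if j < a i then 1 else 0) := Finset.sum_comm
      _ = _ := Finset.sum_congr rfl (fun j _ => by rw [Finset.card_filter])
  have e3 : ∀ j ∈ Finset.range m, (Finset.univ.filter (fun i => j + 1 < a i)).card ≤ m - 1 - j := by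
    intro j hj
    have hjm := Finset.mem_range.mp hj
    have h4 := h3 (j+1) (by omega) (by omega)
    have hd : Disjoint (Finset.univ.filter (fun i => a i ≤ j + 1))
        (Finset.univ.filter (fun i => j + 1 < a i)) := by
      rw [Finset.disjoint_filter]
      intro i _ hi; omega
    have h5 : ((Finset.univ.filter (fun i => a i ≤ j + 1)) ∪
        (Finset.univ.filter (fun i => j + 1 < a i))).card ≤ m + 1 := by
      refine le_trans (Finset.card_le_univ _) ?_
      simp
    rw [Finset.card_union_of_disjoint hd] at h5
    omega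
  rw [e2, Finset.sum_range_succ']
  have e4 : (Finset.univ.filter (fun i => 0 < a i)).card ≤ m + 1 := by
    refine le_trans (Finset.card_le_univ _) ?_
    simp
  have e5 := Finset.sum_le_sum e3
  have e6 : ∑ j ∈ Finset.range m, (m - 1 - j) = m.choose 2 := by
    rw [Finset.sum_range_reflect (fun j => j) m, Finset.sum_range_id, Nat.choose_two_right]
  have e7 : (m + 1).choose 2 = m.choose 2 + m := by
    rw [Nat.choose_succ_succ' m 1, Nat.choose_one_right]; ring
  rw [e6] at e5
  rw [e7]
  omega

end Pool.Agent.Q228.SPF.TaskBound
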