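import Pool.Agent.Q228.SPF.Stmts

set_option autoImplicit false

open Finset
open scoped Classical

namespace Pool.Agent.Q228.SPF.TaskCoeff

theorem main : Pool.Agent.Q228.SPF.TaskCoeff := by
  intro ι κ s t f g hq k
  have hP : (∑ x ∈ s, (Polynomial.X : Polynomial ℝ) ^ f x) =
      ∑ y ∈ t, (Polynomial.X : Polynomial ℝ) ^ g y := by
    refine Polynomial.eq_of_infinite_eval_eq _ _ ?_
    refine Set.Infinite.mono ?_ (Set.Ioi_infinite (1 : ℝ))
    intro q hq1
    have := hq q hq1
    simpa [Polynomial.eval_finset_sum] using this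
  have hc := congrArg (fun P => Polynomial.coeff P k) hP
  simp only [Polynomial.finset_sum_coeff, Polynomial.coeff_X_pow] at hc
  have e1 : ∑ x ∈ s, (if k = f x then (1 : ℝ) else 0) = ((s.filter fun x => f x = k).card : ℝ) := by
    rw [Finset.sum_ite, Finset.sum_const_zero, add_zero, Finset.sum_const, nsmul_eq_mul, mul_one]
    congr 2
    ext x
    simp [eq_comm]
  have e2 : ∑ x ∈ t, (if k = g x then (1 : ℝ) else 0) = ((t.filter fun x => g x = k).card : ℝ) := by
    rw [Finset.sum_ite, Finset.sum_const_zero, add_zero, Finset.sum_const, nsmul_eq_mul, mul_one]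
    congr 2
    ext x
    simp [eq_comm]
  rw [e1, e2] at hc
  exact_mod_cast hc

end Pool.Agent.Q228.SPF.TaskCoeff
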