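import Pool.Agent.Q228.SPF.Stmts

set_option autoImplicit false

open Finset

namespace Pool.Agent.Q228.SPF.TaskDet

theorem main : Pool.Agent.Q228.SPF.TaskDet := by
  intro q X Y R hq hX hY n
  induction n using Nat.strong_induction_on with
  | _ n ih =>
    intro hn
    have h := (hX n hn).trans (hY n hn).symm
    have hn' : n ∈ Finset.Icc 1 n := Finset.mem_Icc.2 ⟨hn, le_rfl⟩
    rw [← Finset.add_sum_erase _ _ hn',
      ← Finset.add_sum_erase (Finset.Icc 1 n)
        (fun m => (n.choose m : ℝ) * q ^ (n - m).choose 2 * (q - 1) ^ m * Y m) hn'] at h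
    have h2 : ∑ m ∈ (Finset.Icc 1 n).erase n, (n.choose m : ℝ) * q ^ (n - m).choose 2 * (q - 1) ^ m * X m
        = ∑ m ∈ (Finset.Icc 1 n).erase n, (n.choose m : ℝ) * q ^ (n - m).choose 2 * (q - 1) ^ m * Y m := by
      refine Finset.sum_congr rfl fun m hm => ?_
      rw [Finset.mem_erase, Finset.mem_Icc] at hm
      rw [ih m (lt_of_le_of_ne hm.2.2 hm.1) hm.2.1]
    rw [h2] at h
    have h3 := add_right_cancel h
    refine mul_left_cancel₀ ?_ h3
    have h4 : (q - 1) ≠ 0 := by linarith [hq] |> fun (h : 0 < q - 1) => h.ne'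
    have h5 : q ≠ 0 := by linarith [hq] |> fun (h : 0 < q) => h.ne'
    refine mul_ne_zero (mul_ne_zero ?_ (pow_ne_zero _ h5)) (pow_ne_zero _ h4)
    rw [Nat.choose_self]
    norm_num

end Pool.Agent.Q228.SPF.TaskDet
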