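import Pool.Agent.Q228.SPF.Stmts

set_option autoImplicit false

open Finset
open scoped Classical

namespace Pool.Agent.Q228.SPF.TaskDetB

theorem main : Pool.Agent.Q228.SPF.TaskDet := by
  intro q X Y R hq hX hY n
  induction n using Nat.strong_induction_on with
  | _ n ih =>
    intro hn
    have h := (hX n hn).trans (hY n hn).symm
    obtain ⟨m, rfl⟩ : ∃ m, n = m + 1 := ⟨n - 1, by omega⟩
    rw [Finset.sum_Icc_succ_top (by omega), Finset.sum_Icc_succ_top (by omega)] at h
    have e : ∑ x ∈ Finset.Icc 1 m, ((m + 1).choose x : ℝ) * q ^ (m + 1 - x).choose 2 *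
        (q - 1) ^ x * X x = ∑ x ∈ Finset.Icc 1 m, ((m + 1).choose x : ℝ) *
        q ^ (m + 1 - x).choose 2 * (q - 1) ^ x * Y x := by
      refine Finset.sum_congr rfl fun x hx => ?_
      obtain ⟨h1, h2⟩ := Finset.mem_Icc.1 hx
      rw [ih x (by omega) h1]
    rw [e] at h
    have h2 := add_left_cancel h
    have hc : ((m + 1).choose (m + 1) : ℝ) * q ^ (m + 1 - (m + 1)).choose 2 * (q - 1) ^ (m + 1) ≠ 0 := by
      have : (q - 1) ≠ 0 := by linarith
      simp [this]
    exact mul_left_cancel₀ hc h2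

end Pool.Agent.Q228.SPF.TaskDetB
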