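import Pool.Agent.Q228.SPF.Stmts

/-! MP_dc922b_co: task Empty. -/

set_option autoImplicit false

open Finset
open scoped Classical

namespace Pool.Agent.Q228.SPF.TaskEmpty

theorem main : TaskEmpty := by
  intro α _ q S
  have h1 : fo (∅ : Finset α) S = {∅} := by
    ext A
    simp only [fo, Finset.mem_filter, Finset.mem_powerset, Finset.mem_singleton,
      Finset.empty_product, Finset.subset_empty]
    constructor
    · exact fun h => h.1
    · rintro rfl
      refine ⟨rfl, ?_⟩
      refine ⟨by simp, by simp, by simp, by simp, by simp⟩
  rw [h, h1, Finset.sum_singleton]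
  simp [inv]

end Pool.Agent.Q228.SPF.TaskEmpty
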