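import Pool.Agent.Q228.SPF.Stmts

set_option autoImplicit false

open Finset
open scoped Classical

namespace Pool.Agent.Q228.SPF.TaskFin

open Pool.Agent.Q228.SPF

theorem main : Pool.Agent.Q228.SPF.TaskFin := by
  intro hU hF n L w hnL
  have h1 : (∑ c ∈ Finset.Icc 1 L, w c) ^ n =
      ∑ a ∈ Fintype.piFinset (fun _ : Fin n => Finset.Icc 1 L), ∏ i, w (a i) := by
    rw [← Finset.prod_univ_sum, Finset.prod_const, Finset.card_univ, Fintype.card_fin]
  have h2 : ∑ a ∈ Fintype.piFinset (fun _ : Fin n => Finset.Icc 1 L), ∏ i, w (a i) =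
      ∑ M : Finset (Fin n), ∑ a ∈ (Fintype.piFinset fun _ : Fin n => Finset.Icc 1 L).filter
        (fun a => PrimeOn M a ∧ ∀ i, i ∉ M → max 2 (M.card + 1) ≤ a i), ∏ i, w (a i) := by
    simp_rw [Finset.sum_filter]
    rw [Finset.sum_comm]
    refine Finset.sum_congr rfl fun a ha => ?_
    have ha1 : ∀ i, 1 ≤ a i := fun i => (Finset.mem_Icc.mp (Fintype.mem_piFinset.mp ha i)).1
    obtain ⟨M, hM, hM'⟩ := hU n a ha1
    rw [Finset.sum_eq_single M]
    · rw [if_pos hM]
    · intro N _ hN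
      exact if_neg fun h => hN (hM' N h)
    · intro h
      exact absurd (Finset.mem_univ M) h
  rw [h1, h2, Finset.sum_congr rfl fun M _ => hF n L w M hnL]
  have h3 := Finset.sum_powerset_apply_card (x := (Finset.univ : Finset (Fin n))) (fun m => SW m w *
    (∑ c ∈ Finset.Icc (max 2 (m + 1)) L, w c) ^ (n - m))
  rw [Finset.powerset_univ, Finset.card_univ, Fintype.card_fin] at h3
  rw [h3]
  refine Finset.sum_congr rfl fun m _ => ?_
  rw [nsmul_eq_mul, mul_assoc]

end Pool.Agent.Q228.SPF.TaskFin
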