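import Pool.Agent.Q228.SPF.Stmts

set_option autoImplicit false

open Finset
open scoped Classical

noncomputable section

namespace Pool.Agent.Q228.SPF.TaskFixedB

private theorem card_eq {n m : ℕ} (M : Finset (Fin n)) (e : Fin m ≃ {x // x ∈ M}) (P : Fin n → Prop) :
    ((Finset.univ : Finset (Fin m)).filter (fun j => P (e j))).card = (M.filter P).card := by
  apply Finset.card_bij (fun j _ => (e j : Fin n))
  · intro j hj
    rw [Finset.mem_filter] at hj ⊢
    exact ⟨(e j).2, hj.2⟩
  · intro j _ k _ h
    exact e.injective (Subtype.ext h)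
  · intro i hi
    rw [Finset.mem_filter] at hi
    refine ⟨e.symm ⟨i, hi.1⟩, ?_, ?_⟩
    · rw [Finset.mem_filter]
      refine ⟨Finset.mem_univ _, ?_⟩
      rw [Equiv.apply_symm_apply]
      exact hi.2
    · rw [Equiv.apply_symm_apply]

theorem main : Pool.Agent.Q228.SPF.TaskFixed := by
  intro n L w M hnL
  obtain ⟨m, hm⟩ : ∃ m, m = M.card := ⟨_, rfl⟩
  rw [← hm]
  obtain ⟨K, hK⟩ : ∃ K, K = max 2 (m + 1) := ⟨_, rfl⟩
  rw [← hK]
  have hmn : m ≤ n := by
    rw [hm]
    simpa using Finset.card_le_univ M
  let e : Fin m ≃ {x // x ∈ M} := (finCongr hm).trans M.equivFin.symm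
  have hpow : (∑ c ∈ Finset.Icc K L, w c) ^ (n - m) =
      ∑ d ∈ Fintype.piFinset (fun _ : {i // i ∉ M} => Finset.Icc K L), ∏ i, w (d i) := by
    rw [← Finset.prod_univ_sum, Finset.prod_const]
    congr 1
    rw [Finset.card_univ, Fintype.card_subtype_compl, Fintype.card_fin, Fintype.card_coe, hm]
  rw [hpow, SW, Finset.sum_mul_sum, ← Finset.sum_product']
  have key : ∀ a : Fin n → ℕ, ∏ i, w (a i) = (∏ j : Fin m, w (a (e j))) * ∏ i : {i // i ∉ M}, w (a i) := by
    intro a
    rw [← Fintype.prod_subtype_mul_prod_subtype (fun i => i ∈ M) (fun i => w (a i))]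
    congr 1
    refine Eq.trans ?_ (Equiv.prod_comp e (fun i : {x // x ∈ M} => w (a i))).symm
    exact congrArg (fun I : Fintype {x // x ∈ M} =>
      @Finset.prod _ _ _ (@Finset.univ _ I) fun i : {x // x ∈ M} => w (a i)) (Subsingleton.elim _ _)
  refine Finset.sum_bij' (fun a _ => (fun j => a (e j), fun i => a i))
    (fun x _ => fun i => if h : i ∈ M then x.1 (e.symm ⟨i, h⟩) else x.2 ⟨i, h⟩) ?_ ?_ ?_ ?_ ?_
  · intro a ha
    rw [Finset.mem_filter, Fintype.mem_piFinset] at ha
    obtain ⟨h1, ⟨h2, h3⟩, h4⟩ := ha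
    rw [Finset.mem_product]
    constructor
    · simp only [SP]
      rw [Finset.mem_filter, Fintype.mem_piFinset]
      refine ⟨fun j => ?_, fun j _ => ?_, fun j hj1 hj2 => ?_⟩
      · rw [Finset.mem_Icc]
        have := h2 _ (e j).2
        rw [← hm] at this
        exact this
      · rw [Finset.card_univ, Fintype.card_fin]
        have := h2 _ (e j).2
        rw [← hm] at this
        exact this
      · rw [Finset.card_univ, Fintype.card_fin] at hj2
        refine (h3 j hj1 (by omega)).trans (le_of_eq ?_)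
        exact (congrArg Finset.card (Finset.ext fun i => by simp only [Finset.mem_filter])).trans
          ((card_eq M e (fun i => a i ≤ j)).symm.trans
            (congrArg Finset.card (Finset.ext fun k => by simp only [Finset.mem_filter])))
    · rw [Fintype.mem_piFinset]
      intro i
      rw [Finset.mem_Icc]
      refine ⟨?_, (Finset.mem_Icc.1 (h1 _)).2⟩
      exact h4 i.1 i.2
  · rintro ⟨b, d⟩ hx
    rw [Finset.mem_product] at hx
    obtain ⟨hb, hd⟩ := hx
    simp only [SP] at hb
    rw [Finset.mem_filter, Fintype.mem_piFinset] at hb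
    rw [Fintype.mem_piFinset] at hd
    obtain ⟨hb1, hb2, hb3⟩ := hb
    rw [Finset.card_univ, Fintype.card_fin] at hb3
    rw [Finset.mem_filter, Fintype.mem_piFinset]
    refine ⟨fun i => ?_, ⟨fun i hi => ?_, fun j hj1 hj2 => ?_⟩, fun i hi => ?_⟩
    · rw [Finset.mem_Icc]
      by_cases h : i ∈ M
      · simp only [h, dif_pos]
        have := Finset.mem_Icc.1 (hb1 (e.symm ⟨i, h⟩))
        omega
      · simp only [h, not_false_eq_true, dif_neg]
        have := Finset.mem_Icc.1 (hd ⟨i, h⟩)
        have h2 : 2 ≤ K := by rw [hK]; exact le_max_left _ _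
        exact ⟨le_trans (le_trans (by norm_num) h2) this.1, this.2⟩
    · simp only [hi, dif_pos]
      have := Finset.mem_Icc.1 (hb1 (e.symm ⟨i, hi⟩))
      rw [← hm]
      exact this
    · rw [← hm] at hj2
      have := hb3 j hj1 hj2
      refine this.trans (le_of_eq ?_)
      have h7 := card_eq M e (fun i => (if h : i ∈ M then b (e.symm ⟨i, h⟩) else d ⟨i, h⟩) ≤ j)
      have h8 : ∀ k : Fin m, (if h : ((e k : {x // x ∈ M}) : Fin n) ∈ M then b (e.symm ⟨e k, h⟩) else d ⟨e k, h⟩) = b k := by
        intro k
        have h : ((e k : {x // x ∈ M}) : Fin n) ∈ M := (e k).2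
        simp only [h, dif_pos]
        have : e.symm ⟨(e k : Fin n), h⟩ = k := by
          rw [Equiv.symm_apply_eq]
        rw [this]
      simp only [h8] at h7
      exact (congrArg Finset.card (Finset.ext fun k => by simp only [Finset.mem_filter])).trans
        (h7.trans (congrArg Finset.card (Finset.ext fun k => by simp only [Finset.mem_filter])))
    · simp only [hi, not_false_eq_true, dif_neg]
      have := Finset.mem_Icc.1 (hd ⟨i, hi⟩)
      exact this.1
  · intro a _
    funext i
    by_cases h : i ∈ M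
    · simp only [h, dif_pos, Equiv.apply_symm_apply]
    · simp only [h, not_false_eq_true, dif_neg]
  · rintro ⟨b, d⟩ _
    simp only [Prod.mk.injEq]
    constructor
    · funext k
      have h : ((e k : {x // x ∈ M}) : Fin n) ∈ M := (e k).2
      simp only [h, dif_pos]
      have : e.symm ⟨(e k : Fin n), h⟩ = k := by
        rw [Equiv.symm_apply_eq]
      rw [this]
    · funext i
      simp only [i.2, not_false_eq_true, dif_neg]
  · intro a _
    exact key a

end Pool.Agent.Q228.SPF.TaskFixedB
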