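import Pool.Agent.Q228.SPF.Stmts

set_option autoImplicit false

open Finset
open scoped Classical

namespace Pool.Agent.Q228.SPF.TaskGeom

open Pool.Agent.Q228.SPF

private theorem geom {α : Type} [LinearOrder α] (q : ℝ) (W : Finset α) :
    1 + (q - 1) * ∑ k ∈ W, q ^ (W.filter (· < k)).card = q ^ W.card := by
  induction W using Finset.induction_on_max with
  | empty => simp
  | insert a W ha ih =>
    have haW : a ∉ W := fun h => lt_irrefl _ (ha a h)
    rw [Finset.sum_insert haW, Finset.card_insert_of_notMem haW]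
    have h1 : (insert a W).filter (· < a) = W := by
      ext x
      simp only [Finset.mem_filter, Finset.mem_insert]
      constructor
      · rintro ⟨rfl | h, h2⟩
        · exact (lt_irrefl _ h2).elim
        · exact h
      · exact fun h => ⟨Or.inr h, ha x h⟩
    have h2 : ∑ k ∈ W, q ^ ((insert a W).filter (· < k)).card =
        ∑ k ∈ W, q ^ (W.filter (· < k)).card := by
      refine Finset.sum_congr rfl fun k hk => ?_
      congr 2
      ext x
      simp only [Finset.mem_filter, Finset.mem_insert]
      constructor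
      · rintro ⟨rfl | h, h2⟩
        · exact (lt_asymm h2 (ha k hk)).elim
        · exact ⟨h, h2⟩
      · exact fun h => ⟨Or.inr h.1, h.2⟩
    rw [h1, h2, pow_succ]
    linear_combination ih

theorem main : Pool.Agent.Q228.SPF.TaskGeom := by
  intro α _ q V S hS
  have h1 : ∑ k ∈ V ∩ S, q ^ (V.filter (· < k)).card =
      ∑ k ∈ V ∩ S, q ^ ((V ∩ S).filter (· < k)).card := by
    refine Finset.sum_congr rfl fun k hk => ?_
    congr 2
    ext x
    simp only [Finset.mem_filter, Finset.mem_inter]
    rw [Finset.mem_inter] at hk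
    exact ⟨fun h => ⟨⟨h.1, hS k hk.2 x h.1 h.2⟩, h.2⟩, fun h => ⟨h.1.1, h.2⟩⟩
  rw [h1]
  exact geom q (V ∩ S)

end Pool.Agent.Q228.SPF.TaskGeom
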