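import Pool.Agent.Q228.SPF.Stmts

set_option autoImplicit false

open Finset
open scoped Classical

namespace Pool.Agent.Q228.SPF.TaskInj

private theorem memJoin {α : Type} [LinearOrder α] (k : α) (B : Finset α)
    (A1 A2 : Finset (α × α)) (x : α × α) :
    x ∈ join k B A1 A2 ↔ x ∈ A1 ∨ (x.1 = k ∧ x.2 ∈ B) ∨ x ∈ A2 := by
  simp only [join, mem_union, mem_product, mem_singleton]
  tauto

private theorem foSub {α : Type} [LinearOrder α] {V S : Finset α} {A : Finset (α × α)}
    (hA : A ∈ fo V S) {x : α × α} (hx : x ∈ A) : x.1 ∈ V ∧ x.2 ∈ V := by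
  simp only [fo, mem_filter, mem_powerset] at hA
  have := hA.1 hx
  simpa [mem_product] using this

private theorem foRoot {α : Type} [LinearOrder α] {V S : Finset α} {A : Finset (α × α)}
    (hA : A ∈ fo V S) {v : α} (hv : v ∈ V) (h : ∀ u, (u, v) ∉ A) : v ∈ S := by
  simp only [fo, mem_filter, mem_powerset] at hA
  exact hA.2.2.2.2.2 v hv h

private theorem rootK {α : Type} [LinearOrder α] {V S B : Finset α} {k : α}
    {A1 A2 : Finset (α × α)} (hB : B ⊆ V.erase k) (h1 : A1 ∈ fo B B)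
    (h2 : A2 ∈ fo ((V.erase k) \ B) (S.filter (· < k))) (u : α) :
    (u, k) ∉ join k B A1 A2 := by
  rw [memJoin]
  have hk : k ∉ B := fun h => by simpa using hB h
  rintro (h | ⟨-, h⟩ | h)
  · exact hk (foSub h1 h).2
  · exact hk h
  · have := (foSub h2 h).2
    simp at this

private theorem rootLt {α : Type} [LinearOrder α] {V S B : Finset α} {k v : α}
    {A1 A2 : Finset (α × α)} (h2 : A2 ∈ fo ((V.erase k) \ B) (S.filter (· < k)))
    (hv : v ∈ V) (hne : v ≠ k) (hroot : ∀ u, (u, v) ∉ join k B A1 A2) : v < k := by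
  have hvB : v ∉ B := fun h => hroot k (by
    rw [memJoin]
    exact Or.inr (Or.inl ⟨rfl, h⟩))
  have hv' : v ∈ (V.erase k) \ B := by
    simp only [mem_sdiff, mem_erase]
    exact ⟨⟨hne, hv⟩, hvB⟩
  have := foRoot h2 hv' (fun u hu => hroot u (by
    rw [memJoin]
    exact Or.inr (Or.inr hu)))
  simp only [mem_filter] at this
  exact this.2

private theorem memB {α : Type} [LinearOrder α] {V S B : Finset α} {k : α}
    {A1 A2 : Finset (α × α)} (hB : B ⊆ V.erase k) (h1 : A1 ∈ fo B B)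
    (h2 : A2 ∈ fo ((V.erase k) \ B) (S.filter (· < k))) (v : α) :
    v ∈ B ↔ (k, v) ∈ join k B A1 A2 := by
  have hk : k ∉ B := fun h => by simpa using hB h
  rw [memJoin]
  constructor
  · intro h
    exact Or.inr (Or.inl ⟨rfl, h⟩)
  · rintro (h | ⟨-, h⟩ | h)
    · exact absurd (foSub h1 h).1 hk
    · exact h
    · have := (foSub h2 h).1
      simp at this

private theorem memA1 {α : Type} [LinearOrder α] {V S B : Finset α} {k : α}
    {A1 A2 : Finset (α × α)} (hB : B ⊆ V.erase k) (h1 : A1 ∈ fo B B)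
    (h2 : A2 ∈ fo ((V.erase k) \ B) (S.filter (· < k))) (x : α × α) :
    x ∈ A1 ↔ x ∈ join k B A1 A2 ∧ x.1 ∈ B := by
  have hk : k ∉ B := fun h => by simpa using hB h
  rw [memJoin]
  constructor
  · intro h
    exact ⟨Or.inl h, (foSub h1 h).1⟩
  · rintro ⟨h | ⟨h, -⟩ | h, hx⟩
    · exact h
    · exact absurd (h ▸ hx) hk
    · have := (foSub h2 h).1
      simp only [mem_sdiff] at this
      exact absurd hx this.2

private theorem memA2 {α : Type} [LinearOrder α] {V S B : Finset α} {k : α}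
    {A1 A2 : Finset (α × α)} (h1 : A1 ∈ fo B B)
    (h2 : A2 ∈ fo ((V.erase k) \ B) (S.filter (· < k))) (x : α × α) :
    x ∈ A2 ↔ x ∈ join k B A1 A2 ∧ x.1 ∉ B ∧ x.1 ≠ k := by
  rw [memJoin]
  constructor
  · intro h
    have := (foSub h2 h).1
    simp only [mem_sdiff, mem_erase] at this
    exact ⟨Or.inr (Or.inr h), this.2, this.1.1⟩
  · rintro ⟨h | ⟨h, -⟩ | h, hx, hne⟩
    · exact absurd (foSub h1 h).1 hx
    · exact absurd h hne
    · exact h

theorem main : TaskInj := by
  intro α _ V S B B' k k' A1 A2 A1' A2' hkV hkS hB h1 h2 hkV' hkS' hB' h1' h2' he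
  have hk : k = k' := by
    by_contra hne
    have r1 : k' < k := rootLt (A1 := A1) h2 hkV' (Ne.symm hne) (fun u => by
      rw [he]
      exact rootK hB' h1' h2' u)
    have r2 : k < k' := rootLt (A1 := A1') h2' hkV hne (fun u => by
      rw [← he]
      exact rootK hB h1 h2 u)
    exact lt_asymm r1 r2
  subst hk
  have hBB : B = B' := by
    ext v
    rw [memB hB h1 h2, memB hB' h1' h2', he]
  subst hBB
  refine ⟨rfl, rfl, ?_, ?_⟩
  · ext x
    rw [memA1 hB h1 h2, memA1 hB' h1' h2', he]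
  · ext x
    rw [memA2 h1 h2, memA2 h1' h2', he]

end Pool.Agent.Q228.SPF.TaskInj
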