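import Pool.Agent.Q228.SPF.Stmts

/-!
# MP_dc922b_co, task `TaskIso`: `h` only depends on the order type
-/

set_option autoImplicit false

open Finset
open scoped Classical

noncomputable section

namespace Pool.Agent.Q228.SPF.TaskIso

section

variable {α β : Type} [LinearOrder α] [LinearOrder β]

omit [LinearOrder α] in
private theorem mem_im (e : α → β) (A : Finset (α × α)) (x y : β) :
    (x, y) ∈ A.image (Prod.map e e) ↔ ∃ a b, (a, b) ∈ A ∧ e a = x ∧ e b = y := by
  rw [Finset.mem_image]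
  constructor
  · rintro ⟨⟨a, b⟩, hab, h⟩
    have h' : (e a, e b) = (x, y) := h
    rw [Prod.mk.injEq] at h'
    exact ⟨a, b, hab, h'.1, h'.2⟩
  · rintro ⟨a, b, hab, rfl, rfl⟩
    exact ⟨(a, b), hab, rfl⟩

private theorem mem_im' (e : α → β) (he : Function.Injective e) (A : Finset (α × α)) (a b : α) :
    (e a, e b) ∈ A.image (Prod.map e e) ↔ (a, b) ∈ A := by
  rw [mem_im]
  constructor
  · rintro ⟨a', b', hab, h1, h2⟩
    rw [he h1, he h2] at hab
    exact hab
  · intro h
    exact ⟨a, b, h, rfl, rfl⟩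

private theorem isFo_im (e : α → β) (he : Function.Injective e) (V S : Finset α)
    (A : Finset (α × α)) (h : IsFo V S A) :
    IsFo (V.image e) (S.image e) (A.image (Prod.map e e)) := by
  obtain ⟨h1, h2, h3, h4, h5⟩ := h
  refine ⟨?_, ?_, ?_, ?_, ?_⟩
  · rintro ⟨x, y⟩ hxy
    obtain ⟨a, b, hab, rfl, rfl⟩ := (mem_im e A _ _).1 hxy
    have := Finset.mem_product.1 (h1 hab)
    exact Finset.mem_product.2 ⟨Finset.mem_image_of_mem e this.1, Finset.mem_image_of_mem e this.2⟩
  · rintro ⟨x, y⟩ hxy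
    obtain ⟨a, b, hab, rfl, rfl⟩ := (mem_im e A _ _).1 hxy
    intro hne
    exact h2 _ hab (he hne)
  · intro x y z hxy hyz
    obtain ⟨a, b, hab, rfl, rfl⟩ := (mem_im e A _ _).1 hxy
    obtain ⟨b', c, hbc, hb, rfl⟩ := (mem_im e A _ _).1 hyz
    rw [he hb] at hbc
    exact (mem_im' e he A _ _).2 (h3 _ _ _ hab hbc)
  · intro x y z hxz hyz
    obtain ⟨a, c, hac, rfl, rfl⟩ := (mem_im e A _ _).1 hxz
    obtain ⟨b, c', hbc, rfl, hc⟩ := (mem_im e A _ _).1 hyz
    rw [he hc] at hbc
    rcases h4 _ _ _ hac hbc with h | h | h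
    · exact Or.inl (by rw [h])
    · exact Or.inr (Or.inl ((mem_im' e he A _ _).2 h))
    · exact Or.inr (Or.inr ((mem_im' e he A _ _).2 h))
  · intro x hx hno
    obtain ⟨v, hv, rfl⟩ := Finset.mem_image.1 hx
    exact Finset.mem_image_of_mem e
      (h5 v hv fun u hu => hno (e u) ((mem_im' e he A _ _).2 hu))

private theorem isFo_of_im (e : α → β) (he : Function.Injective e) (V S : Finset α)
    (A : Finset (α × α)) (h : IsFo (V.image e) (S.image e) (A.image (Prod.map e e))) :
    IsFo V S A := by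
  obtain ⟨h1, h2, h3, h4, h5⟩ := h
  refine ⟨?_, ?_, ?_, ?_, ?_⟩
  · rintro ⟨a, b⟩ hab
    have := Finset.mem_product.1 (h1 ((mem_im' e he A _ _).2 hab))
    exact Finset.mem_product.2 ⟨he.mem_finset_image.1 this.1, he.mem_finset_image.1 this.2⟩
  · rintro ⟨a, b⟩ hab hne
    exact h2 _ ((mem_im' e he A _ _).2 hab) (congrArg e hne)
  · intro a b c hab hbc
    exact (mem_im' e he A _ _).1
      (h3 _ _ _ ((mem_im' e he A _ _).2 hab) ((mem_im' e he A _ _).2 hbc))
  · intro a b c hac hbc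
    rcases h4 _ _ _ ((mem_im' e he A _ _).2 hac) ((mem_im' e he A _ _).2 hbc) with h | h | h
    · exact Or.inl (he h)
    · exact Or.inr (Or.inl ((mem_im' e he A _ _).1 h))
    · exact Or.inr (Or.inr ((mem_im' e he A _ _).1 h))
  · intro v hv hno
    refine he.mem_finset_image.1 (h5 (e v) (Finset.mem_image_of_mem e hv) fun u hu => ?_)
    obtain ⟨a, b, hab, rfl, hb⟩ := (mem_im e A _ _).1 hu
    rw [he hb] at hab
    exact hno a hab

private theorem mem_fo (V S : Finset α) (A : Finset (α × α)) : A ∈ fo V S ↔ IsFo V S A := by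
  unfold fo
  rw [Finset.mem_filter, Finset.mem_powerset]
  exact ⟨fun h => h.2, fun h => ⟨h.1, h⟩⟩

private theorem inv_im (e : α → β) (he : StrictMono e) (A : Finset (α × α)) :
    inv (A.image (Prod.map e e)) = inv A := by
  unfold inv
  rw [Finset.filter_image, Finset.card_image_of_injective _ (he.injective.prodMap he.injective)]
  congr 1
  refine Finset.filter_congr fun x _ => ?_
  exact he.lt_iff_lt

end

theorem main : Pool.Agent.Q228.SPF.TaskIso := by
  intro α β _ _ e q V S he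
  have hinj := he.injective
  unfold h
  symm
  refine Finset.sum_bij (fun A _ => A.image (Prod.map e e)) ?_ ?_ ?_ ?_
  · intro A hA
    exact (mem_fo _ _ _).2 (isFo_im e hinj V S A ((mem_fo _ _ _).1 hA))
  · intro A _ B _ hAB
    exact Finset.image_injective (hinj.prodMap hinj) hAB
  · intro B hB
    have hB' := (mem_fo _ _ _).1 hB
    have hEq : ((V ×ˢ V).filter fun x : α × α => (e x.1, e x.2) ∈ B).image (Prod.map e e) = B := by
      ext ⟨x, y⟩
      rw [mem_im]
      constructor
      · rintro ⟨a, b, hab, rfl, rfl⟩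
        exact (Finset.mem_filter.1 hab).2
      · intro hxy
        obtain ⟨hx, hy⟩ := Finset.mem_product.1 (hB'.1 hxy)
        obtain ⟨a, ha, rfl⟩ := Finset.mem_image.1 hx
        obtain ⟨b, hb, rfl⟩ := Finset.mem_image.1 hy
        exact ⟨a, b, Finset.mem_filter.2 ⟨Finset.mem_product.2 ⟨ha, hb⟩, hxy⟩, rfl, rfl⟩
    refine ⟨(V ×ˢ V).filter fun x : α × α => (e x.1, e x.2) ∈ B, ?_, hEq⟩
    rw [mem_fo]
    refine isFo_of_im e hinj V S _ ?_
    rw [hEq]
    exact hB'
  · intro A _
    rw [inv_im e he]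

end Pool.Agent.Q228.SPF.TaskIso
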