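import Pool.Agent.Q228.SPF.Stmts

set_option autoImplicit false

open Finset
open scoped Classical

namespace Pool.Agent.Q228.SPF.TaskJoin

private theorem mem_join {α : Type} [LinearOrder α] {k : α} {B : Finset α} {A1 A2 : Finset (α × α)}
    {a b : α} : (a, b) ∈ join k B A1 A2 ↔ (a, b) ∈ A1 ∨ (a = k ∧ b ∈ B) ∨ (a, b) ∈ A2 := by
  unfold join
  rw [Finset.mem_union, Finset.mem_union, Finset.mem_product, Finset.mem_singleton, or_assoc]

theorem main : Pool.Agent.Q228.SPF.TaskJoin := by
  intro α _ V S B k A1 A2 hkV hkS hB hA1 hA2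
  unfold fo at hA1 hA2
  rw [Finset.mem_filter] at hA1 hA2
  obtain ⟨s1, n1, t1, c1, r1⟩ := hA1.2
  obtain ⟨s2, n2, t2, c2, r2⟩ := hA2.2
  have hBV : ∀ x ∈ B, x ∈ V ∧ x ≠ k := fun x hx => by
    have := hB hx
    rw [Finset.mem_erase] at this
    exact ⟨this.2, this.1⟩
  have hkB : k ∉ B := fun hk => (hBV k hk).2 rfl
  have m1 : ∀ a b, (a, b) ∈ A1 → a ∈ B ∧ b ∈ B := fun a b hab => by
    have := s1 hab
    rw [Finset.mem_product] at this
    exact this
  have m2 : ∀ a b, (a, b) ∈ A2 → (a ∈ V ∧ a ≠ k ∧ a ∉ B) ∧ (b ∈ V ∧ b ≠ k ∧ b ∉ B) :=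
    fun a b hab => by
    have := s2 hab
    rw [Finset.mem_product, Finset.mem_sdiff, Finset.mem_sdiff, Finset.mem_erase,
      Finset.mem_erase] at this
    exact ⟨⟨this.1.1.2, this.1.1.1, this.1.2⟩, ⟨this.2.1.2, this.2.1.1, this.2.2⟩⟩
  refine ⟨?_, ?_⟩
  · have hsub : join k B A1 A2 ⊆ V ×ˢ V := by
      rintro ⟨a, b⟩ hab
      rw [Finset.mem_product]
      rcases mem_join.1 hab with h | ⟨rfl, h⟩ | h
      · exact ⟨(hBV a (m1 a b h).1).1, (hBV b (m1 a b h).2).1⟩
      · exact ⟨hkV, (hBV b h).1⟩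
      · exact ⟨(m2 a b h).1.1, (m2 a b h).2.1⟩
    unfold fo
    rw [Finset.mem_filter, Finset.mem_powerset]
    refine ⟨hsub, hsub, ?_, ?_, ?_, ?_⟩
    · rintro ⟨a, b⟩ hab
      rcases mem_join.1 hab with h | ⟨rfl, h⟩ | h
      · exact n1 _ h
      · exact fun h' => (hBV b h).2 h'.symm
      · exact n2 _ h
    · intro a b c hab hbc
      rw [mem_join]
      rcases mem_join.1 hab with h | ⟨rfl, h⟩ | h
      · rcases mem_join.1 hbc with h' | ⟨rfl, h'⟩ | h'
        · exact Or.inl (t1 a b c h h')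
        · exact absurd (m1 _ _ h).2 hkB
        · exact absurd (m1 _ _ h).2 (m2 _ _ h').1.2.2
      · rcases mem_join.1 hbc with h' | ⟨rfl, h'⟩ | h'
        · exact Or.inr (Or.inl ⟨rfl, (m1 _ _ h').2⟩)
        · exact Or.inr (Or.inl ⟨rfl, h'⟩)
        · exact absurd h (m2 _ _ h').1.2.2
      · rcases mem_join.1 hbc with h' | ⟨rfl, h'⟩ | h'
        · exact absurd (m1 _ _ h').1 (m2 _ _ h).2.2.2
        · exact absurd rfl (m2 _ _ h).2.2.1
        · exact Or.inr (Or.inr (t2 a b c h h'))
    · intro a b c hac hbc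
      rw [mem_join, mem_join]
      rcases mem_join.1 hac with h | ⟨h0, h⟩ | h
      · rcases mem_join.1 hbc with h' | ⟨h0', h'⟩ | h'
        · rcases c1 a b c h h' with h'' | h'' | h''
          · exact Or.inl h''
          · exact Or.inr (Or.inl (Or.inl h''))
          · exact Or.inr (Or.inr (Or.inl h''))
        · exact Or.inr (Or.inr (Or.inr (Or.inl ⟨h0', (m1 _ _ h).1⟩)))
        · exact absurd (m1 _ _ h).2 (m2 _ _ h').2.2.2
      · rcases mem_join.1 hbc with h' | ⟨h0', h'⟩ | h'
        · exact Or.inr (Or.inl (Or.inr (Or.inl ⟨h0, (m1 _ _ h').1⟩)))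
        · exact Or.inl (h0.trans h0'.symm)
        · exact absurd h (m2 _ _ h').2.2.2
      · rcases mem_join.1 hbc with h' | ⟨h0', h'⟩ | h'
        · exact absurd (m1 _ _ h').2 (m2 _ _ h).2.2.2
        · exact absurd h' (m2 _ _ h).2.2.2
        · rcases c2 a b c h h' with h'' | h'' | h''
          · exact Or.inl h''
          · exact Or.inr (Or.inl (Or.inr (Or.inr h'')))
          · exact Or.inr (Or.inr (Or.inr (Or.inr h'')))
    · intro v hv hu
      by_cases hvk : v = k
      · rw [hvk]; exact hkS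
      · by_cases hvB : v ∈ B
        · exact absurd (mem_join.2 (Or.inr (Or.inl ⟨rfl, hvB⟩))) (hu k)
        · have h1 : v ∈ V.erase k \ B := by
            rw [Finset.mem_sdiff, Finset.mem_erase]
            exact ⟨⟨hvk, hv⟩, hvB⟩
          have h2 := r2 v h1 (fun u h => hu u (mem_join.2 (Or.inr (Or.inr h))))
          rw [Finset.mem_filter] at h2
          exact h2.1
  · unfold inv join
    rw [Finset.filter_union, Finset.filter_union, Finset.card_union_of_disjoint,
      Finset.card_union_of_disjoint]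
    · congr 2
      have : (({k} ×ˢ B : Finset (α × α))).filter (fun x => x.2 < x.1) =
          (B.filter (· < k)).image (fun b => (k, b)) := by
        ext ⟨a, b⟩
        simp only [Finset.mem_filter, Finset.mem_product, Finset.mem_singleton, Finset.mem_image,
          Prod.mk.injEq]
        constructor
        · rintro ⟨⟨rfl, h⟩, h'⟩
          exact ⟨b, ⟨h, h'⟩, rfl, rfl⟩
        · rintro ⟨c, ⟨h, h'⟩, rfl, rfl⟩
          exact ⟨⟨rfl, h⟩, h'⟩
      rw [this, Finset.card_image_of_injective]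
      intro x y hxy
      simpa using hxy
    · rw [Finset.disjoint_left]
      rintro ⟨a, b⟩ h h'
      rw [Finset.mem_filter] at h h'
      rw [Finset.mem_product, Finset.mem_singleton] at h'
      have h3 : a ∈ B := (m1 _ _ h.1).1
      have h4 : a = k := h'.1.1
      rw [h4] at h3
      exact hkB h3
    · rw [Finset.disjoint_left]
      rintro ⟨a, b⟩ h h'
      rw [Finset.mem_union, Finset.mem_filter, Finset.mem_filter] at h
      rw [Finset.mem_filter] at h'
      rcases h with h | h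
      · exact (m2 _ _ h'.1).1.2.2 (m1 _ _ h.1).1
      · rw [Finset.mem_product, Finset.mem_singleton] at h
        exact (m2 _ _ h'.1).1.2.1 h.1.1

end Pool.Agent.Q228.SPF.TaskJoin
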