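import Pool.Agent.Q228.SPF.Stmts

namespace Pool.Agent.Q228.SPF.TaskLim

open Pool.Agent.Q228.SPF Filter Topology

private theorem geo (p : ℝ) (hp : 0 < p) (hp1 : p < 1) (k : ℕ) :
    Tendsto (fun L : ℕ => ∑ c ∈ Finset.Icc k L, p ^ c) atTop (𝓝 (p ^ k / (1 - p))) := by
  have h1 : Tendsto (fun L : ℕ => (p ^ k - p ^ (L + 1)) / (1 - p)) atTop
      (𝓝 ((p ^ k - 0) / (1 - p))) := by
    refine Tendsto.div_const (Tendsto.sub tendsto_const_nhds ?_) _
    exact (tendsto_pow_atTop_nhds_zero_of_lt_one hp.le hp1).comp (tendsto_add_atTop_nat 1)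
  rw [sub_zero] at h1
  refine h1.congr' ?_
  filter_upwards [eventually_ge_atTop k] with L hL
  have h2 : Finset.Icc k L = Finset.Ico k (L + 1) := by
    ext x; simp only [Finset.mem_Icc, Finset.mem_Ico]; omega
  rw [h2, geom_sum_Ico' hp1.ne (by omega)]

theorem main : Pool.Agent.Q228.SPF.TaskLim := by
  intro n p hp hp1 h
  have h1 : Tendsto (fun L : ℕ => (∑ c ∈ Finset.Icc 1 L, p ^ c) ^ n) atTop
      (𝓝 ((p / (1 - p)) ^ n)) := by
    have := (geo p hp hp1 1).pow n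
    rwa [pow_one] at this
  have h2 : Tendsto (fun L : ℕ => ∑ m ∈ Finset.range (n + 1), (n.choose m : ℝ) *
      SW m (fun c => p ^ c) * (∑ c ∈ Finset.Icc (max 2 (m + 1)) L, p ^ c) ^ (n - m)) atTop
      (𝓝 (∑ m ∈ Finset.range (n + 1), (n.choose m : ℝ) * SW m (fun c => p ^ c) *
      (p ^ max 2 (m + 1) / (1 - p)) ^ (n - m))) := by
    refine tendsto_finsetSum _ fun m _ => ?_
    exact Tendsto.const_mul _ ((geo p hp hp1 _).pow _)
  refine tendsto_nhds_unique h1 (h2.congr' ?_)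
  filter_upwards [eventually_ge_atTop n] with L hL
  exact (h L hL).symm

end Pool.Agent.Q228.SPF.TaskLim
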