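import Pool.Agent.Q228.SPF.Stmts

set_option autoImplicit false

open Finset

namespace Pool.Agent.Q228.SPF.TaskPark

theorem main : Pool.Agent.Q228.SPF.TaskPark := by
  classical
  intro hS hB n k hn
  refine Nat.subtype_card _ fun a => ?_
  rw [Finset.mem_filter]
  constructor
  · rintro ⟨h1, h2⟩
    have h3 := hB n hn a h1
    refine ⟨(hS n hn a).2 h1, ?_⟩
    omega
  · rintro ⟨h1, h2⟩
    refine ⟨(hS n hn a).1 h1, ?_⟩
    omega

end Pool.Agent.Q228.SPF.TaskPark
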