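import Pool.Agent.Q228.SPF.Stmts

set_option autoImplicit false

open Finset
open scoped Classical

namespace Pool.Agent.Q228.SPF.TaskParkB

theorem main : Pool.Agent.Q228.SPF.TaskPark := by
  intro hSph hB n k hn
  have e : {a : Fin n → ℕ | Spherical a ∧ ∑ i, a i + k = n.choose 2 + 1} =
      (((SP n).filter fun a => n.choose 2 + 1 - ∑ i, a i = k : Finset (Fin n → ℕ)) :
        Set (Fin n → ℕ)) := by
    ext a
    simp only [Set.mem_setOf_eq, Finset.coe_filter]
    rw [hSph n hn a]
    constructor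
    · rintro ⟨h1, h2⟩
      exact ⟨h1, by omega⟩
    · rintro ⟨h1, h2⟩
      have := hB n hn a h1
      exact ⟨h1, by omega⟩
  have : Nat.card {a : Fin n → ℕ // Spherical a ∧ ∑ i, a i + k = n.choose 2 + 1} =
      Set.ncard {a : Fin n → ℕ | Spherical a ∧ ∑ i, a i + k = n.choose 2 + 1} := rfl
  rw [this, e, Set.ncard_coe_finset]

end Pool.Agent.Q228.SPF.TaskParkB
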