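import Pool.Agent.Q228.SPF.Stmts

/-! Blueprint of helper228 for MP_dc922b_co: TaskRec. -/

set_option autoImplicit false

open Finset
open scoped Classical

noncomputable section

namespace Pool.Agent.Q228.SPF.TaskRec

open Pool.Agent.Q228.SPF

theorem main : Pool.Agent.Q228.SPF.TaskRec := by
  intro hJ hI hS α _ q V S hV
  symm
  have e1 : ∀ k ∈ V ∩ S, ∀ B ∈ (V.erase k).powerset,
      q ^ (B.filter (· < k)).card * h q B B * h q ((V.erase k) \ B) (S.filter (· < k)) =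
        ∑ x ∈ fo B B ×ˢ fo ((V.erase k) \ B) (S.filter (· < k)), q ^ inv (join k B x.1 x.2) := by
    intro k hk B hB
    rw [Finset.sum_product]
    unfold h
    rw [mul_assoc, Finset.sum_mul_sum, Finset.mul_sum]
    apply Finset.sum_congr rfl
    intro A1 hA1
    rw [Finset.mul_sum]
    apply Finset.sum_congr rfl
    intro A2 hA2
    rw [(hJ α V S B k A1 A2 (Finset.mem_inter.mp hk).1 (Finset.mem_inter.mp hk).2
      (Finset.mem_powerset.mp hB) hA1 hA2).2, pow_add, pow_add]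
    ring
  rw [Finset.sum_congr rfl (fun k hk => Finset.sum_congr rfl (e1 k hk)), Finset.sum_sigma',
    Finset.sum_sigma']
  unfold h
  refine Finset.sum_bij (fun x _ => join x.1.1 x.1.2 x.2.1 x.2.2) ?_ ?_ ?_ ?_
  · rintro ⟨⟨k, B⟩, A1, A2⟩ hx
    simp only [Finset.mem_sigma, Finset.mem_inter, Finset.mem_powerset, Finset.mem_product] at hx
    exact (hJ α V S B k A1 A2 hx.1.1.1 hx.1.1.2 hx.1.2 hx.2.1 hx.2.2).1
  · rintro ⟨⟨k, B⟩, A1, A2⟩ hx ⟨⟨k', B'⟩, A1', A2'⟩ hx' hxx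
    simp only [Finset.mem_sigma, Finset.mem_inter, Finset.mem_powerset, Finset.mem_product]
      at hx hx'
    obtain ⟨rfl, rfl, rfl, rfl⟩ := hI α V S B B' k k' A1 A2 A1' A2' hx.1.1.1 hx.1.1.2 hx.1.2
      hx.2.1 hx.2.2 hx'.1.1.1 hx'.1.1.2 hx'.1.2 hx'.2.1 hx'.2.2 hxx
    rfl
  · intro A hA
    obtain ⟨k, B, A1, A2, h1, h2, h3, h4, h5, h6⟩ := hS α V S A hV hA
    refine ⟨⟨⟨k, B⟩, A1, A2⟩, ?_, h6.symm⟩
    simp only [Finset.mem_sigma, Finset.mem_inter, Finset.mem_powerset, Finset.mem_product]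
    exact ⟨⟨⟨h1, h2⟩, h3⟩, h4, h5⟩
  · rintro ⟨⟨k, B⟩, A1, A2⟩ hx
    rfl

end Pool.Agent.Q228.SPF.TaskRec
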