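import Pool.Agent.Q228.SPF.Stmts

set_option autoImplicit false

open Finset
open scoped Classical

noncomputable section

namespace Pool.Agent.Q228.SPF.TaskS

open Pool.Agent.Q228.SPF

private lemma SW_zero (w : ℕ → ℝ) : SW 0 w = 1 := by
  have hSP : SP 0 = {fun i : Fin 0 => i.elim0} := by
    ext a
    simp only [SP, Finset.mem_filter, Fintype.mem_piFinset, Finset.mem_singleton]
    constructor
    · intro _
      funext i
      exact i.elim0
    · intro _
      refine ⟨fun i => i.elim0, ?_, ?_⟩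
      · intro i
        exact i.elim0
      · intro j h1 h2
        simp at h2
  unfold SW
  rw [hSP]
  simp

private lemma choose_split (m k : ℕ) :
    (m + k).choose 2 = m.choose 2 + k.choose 2 + m * k := by
  induction k with
  | zero => simp
  | succ k ih =>
    have h1 : (m + (k + 1)).choose 2 = (m + k).choose 1 + (m + k).choose 2 := by
      rw [← Nat.add_assoc]; exact Nat.choose_succ_succ' (m + k) 1
    have h2 : (k + 1).choose 2 = k.choose 1 + k.choose 2 := Nat.choose_succ_succ' k 1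
    rw [h1, h2, ih]
    simp only [Nat.choose_one_right]
    ring

theorem main : Pool.Agent.Q228.SPF.TaskS := by
  intro H1 H2 n q hn hq
  have hq0 : (0 : ℝ) < q := by linarith
  have hqne : q ≠ 0 := hq0.ne'
  have hq1 : q - 1 ≠ 0 := by
    have : 0 < q - 1 := by linarith
    exact this.ne'
  have hp0 : (0 : ℝ) < q⁻¹ := inv_pos.mpr hq0
  have hp1 : q⁻¹ < 1 := inv_lt_one_of_one_lt₀ hq
  have h1p : 1 - q⁻¹ = (q - 1) / q := by field_simp
  have hH := H1 n q⁻¹ hp0 hp1
  have hL : (q - 1) ^ n * (q⁻¹ / (1 - q⁻¹)) ^ n = 1 := by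
    rw [← mul_pow, h1p]
    have : (q - 1) * (q⁻¹ / ((q - 1) / q)) = 1 := by field_simp
    rw [this, one_pow]
  have hterm : ∀ m ∈ Finset.range (n + 1),
      q ^ (n.choose 2 + 1) * ((q - 1) ^ n * ((n.choose m : ℝ) * SW m (fun c => q⁻¹ ^ c) *
        (q⁻¹ ^ max 2 (m + 1) / (1 - q⁻¹)) ^ (n - m))) =
      if m = 0 then q ^ (n - 1).choose 2 else
        (n.choose m : ℝ) * q ^ (n - m).choose 2 * (q - 1) ^ m * Sg q m := by
    intro m hm
    have hmn : m ≤ n := by simpa [Nat.lt_succ_iff] using hm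
    have e1 : (q - 1) ^ n = (q - 1) ^ m * (q - 1) ^ (n - m) := by
      rw [← pow_add]; congr 1; omega
    have e2 : (q - 1) ^ (n - m) * (q⁻¹ ^ max 2 (m + 1) / (1 - q⁻¹)) ^ (n - m) =
        (q * q⁻¹ ^ max 2 (m + 1)) ^ (n - m) := by
      rw [← mul_pow, h1p]
      congr 1
      field_simp
    by_cases h0 : m = 0
    · subst h0
      rw [if_pos rfl, SW_zero]
      have e3 : q * q⁻¹ ^ max 2 (0 + 1) = q⁻¹ := by
        have : max 2 (0 + 1) = 2 := by norm_num
        rw [this]
        field_simp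
      have e4 : (n.choose 2 + 1) = (n - 1).choose 2 + n := by
        obtain ⟨k, rfl⟩ : ∃ k, n = k + 1 := ⟨n - 1, by omega⟩
        have : (k + 1).choose 2 = k.choose 1 + k.choose 2 := Nat.choose_succ_succ' k 1
        rw [this, Nat.choose_one_right, Nat.add_sub_cancel]
        ring
      calc q ^ (n.choose 2 + 1) * ((q - 1) ^ n * ((n.choose 0 : ℝ) * 1 *
            (q⁻¹ ^ max 2 (0 + 1) / (1 - q⁻¹)) ^ (n - 0)))
          = q ^ (n.choose 2 + 1) * ((q - 1) ^ (n - 0) *
            (q⁻¹ ^ max 2 (0 + 1) / (1 - q⁻¹)) ^ (n - 0)) := by simp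
        _ = q ^ (n.choose 2 + 1) * (q⁻¹) ^ n := by rw [e2, e3, Nat.sub_zero]
        _ = q ^ (n - 1).choose 2 := by
            rw [e4, pow_add, mul_assoc, ← mul_pow, mul_inv_cancel₀ hqne, one_pow, mul_one]
    · rw [if_neg h0, H2 m q (Nat.one_le_iff_ne_zero.mpr h0) hq]
      have hmax : max 2 (m + 1) = m + 1 := by omega
      have e3 : q * q⁻¹ ^ max 2 (m + 1) = q⁻¹ ^ m := by
        rw [hmax, pow_succ]
        field_simp
      obtain ⟨k, rfl⟩ : ∃ k, n = m + k := ⟨n - m, by omega⟩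
      have hk : m + k - m = k := by omega
      rw [hk] at e1 e2 ⊢
      rw [e1]
      have e5 : q ^ ((m + k).choose 2 + 1) * ((q⁻¹) ^ (m.choose 2 + 1) * (q⁻¹ ^ m) ^ k) =
          q ^ k.choose 2 := by
        rw [choose_split, ← pow_mul, inv_pow, inv_pow, ← mul_inv, ← pow_add]
        have : q ^ (m.choose 2 + k.choose 2 + m * k + 1) =
            q ^ k.choose 2 * q ^ (m.choose 2 + 1 + m * k) := by
          rw [← pow_add]; congr 1; ring
        rw [this, mul_assoc, mul_inv_cancel₀ (pow_ne_zero _ hqne), mul_one]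
      calc q ^ ((m + k).choose 2 + 1) * ((q - 1) ^ m * (q - 1) ^ k * (((m + k).choose m : ℝ) *
            ((q⁻¹) ^ (m.choose 2 + 1) * Sg q m) *
            (q⁻¹ ^ max 2 (m + 1) / (1 - q⁻¹)) ^ k))
          = ((m + k).choose m : ℝ) * Sg q m * (q - 1) ^ m * (q ^ ((m + k).choose 2 + 1) *
            ((q⁻¹) ^ (m.choose 2 + 1) * ((q - 1) ^ k *
            (q⁻¹ ^ max 2 (m + 1) / (1 - q⁻¹)) ^ k))) := by ring
        _ = ((m + k).choose m : ℝ) * Sg q m * (q - 1) ^ m * q ^ k.choose 2 := by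
            rw [e2, e3, e5]
        _ = _ := by ring
  have hsum : q ^ (n.choose 2 + 1) = ∑ m ∈ Finset.range (n + 1),
      if m = 0 then q ^ (n - 1).choose 2 else
        (n.choose m : ℝ) * q ^ (n - m).choose 2 * (q - 1) ^ m * Sg q m := by
    rw [← Finset.sum_congr rfl hterm, ← Finset.mul_sum, ← Finset.mul_sum, ← hH, hL, mul_one]
  have hins : Finset.range (n + 1) = insert 0 (Finset.Icc 1 n) := by
    ext x
    simp only [Finset.mem_range, Finset.mem_insert, Finset.mem_Icc]
    omega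
  rw [hins, Finset.sum_insert (by simp), if_pos rfl] at hsum
  have hcong : ∑ m ∈ Finset.Icc 1 n, (if m = 0 then q ^ (n - 1).choose 2 else
        (n.choose m : ℝ) * q ^ (n - m).choose 2 * (q - 1) ^ m * Sg q m) =
      ∑ m ∈ Finset.Icc 1 n, (n.choose m : ℝ) * q ^ (n - m).choose 2 * (q - 1) ^ m * Sg q m := by
    refine Finset.sum_congr rfl fun m hm => ?_
    have : m ≠ 0 := by
      have := (Finset.mem_Icc.mp hm).1
      omega
    rw [if_neg this]
  rw [hcong] at hsum
  have e4 : (n.choose 2 + 1) = (n - 1).choose 2 + n := by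
    obtain ⟨k, rfl⟩ : ∃ k, n = k + 1 := ⟨n - 1, by omega⟩
    have : (k + 1).choose 2 = k.choose 1 + k.choose 2 := Nat.choose_succ_succ' k 1
    rw [this, Nat.choose_one_right, Nat.add_sub_cancel]
    ring
  rw [e4, pow_add] at hsum
  linarith [hsum]

end Pool.Agent.Q228.SPF.TaskS
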