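import Pool.Agent.Q228.SPF.Stmts

set_option autoImplicit false

open Finset
open scoped Classical

namespace Pool.Agent.Q228.SPF.TaskSW

theorem main : Pool.Agent.Q228.SPF.TaskSW := by
  intro hB n q hn hq
  unfold SW Sg
  rw [Finset.mul_sum]
  refine Finset.sum_congr rfl fun a ha => ?_
  have hs := hB n hn a ha
  have hq0 : q ≠ 0 := by linarith
  rw [Finset.prod_pow_eq_pow_sum]
  obtain ⟨t, ht⟩ := Nat.exists_eq_add_of_le hs
  rw [ht, Nat.add_sub_cancel_left, pow_add, mul_assoc, ← mul_pow, inv_mul_cancel₀ hq0, one_pow,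
    mul_one]

end Pool.Agent.Q228.SPF.TaskSW
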