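import Pool.Agent.Q228.SPF.Stmts

set_option autoImplicit false

open Finset
open scoped Classical

namespace Pool.Agent.Q228.SPF.TaskSph

theorem main : Pool.Agent.Q228.SPF.TaskSph := by
  intro n hn a
  haveI : NeZero n := ⟨by omega⟩
  constructor
  · rintro ⟨σ, hmono, hσ⟩
    have h1 : ∀ k, 1 ≤ a k := by
      intro k
      have h2 := hmono (Fin.zero_le (σ.symm k))
      have h3 := (hσ 0).1 (by simp)
      simp only [Function.comp_apply, Equiv.apply_symm_apply] at h2
      omega
    have h2 : ∀ k, a k ≤ n := by
      intro k
      have h3 := hσ (σ.symm k)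
      rw [Equiv.apply_symm_apply] at h3
      have h4 := (σ.symm k).isLt
      rcases Nat.eq_zero_or_pos (σ.symm k).val with h | h
      · have := h3.1 h
        omega
      · have := h3.2 h
        omega
    unfold SP
    rw [Finset.mem_filter, Fintype.mem_piFinset]
    refine ⟨fun k => by rw [Finset.mem_Icc]; exact ⟨h1 k, h2 k⟩, ?_, ?_⟩
    · intro i _
      rw [Finset.card_univ, Fintype.card_fin]
      exact ⟨h1 i, h2 i⟩
    · intro j hj hjn
      rw [Finset.card_univ, Fintype.card_fin] at hjn
      have h3 : ((Finset.Iic (⟨j, hjn⟩ : Fin n)).image σ) ⊆ Finset.univ.filter (fun i => a i ≤ j) := by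
        intro k hk
        rw [Finset.mem_image] at hk
        obtain ⟨i, hi, rfl⟩ := hk
        rw [Finset.mem_Iic] at hi
        rw [Finset.mem_filter]
        refine ⟨Finset.mem_univ _, ?_⟩
        have h4 := hmono hi
        have h5 := (hσ ⟨j, hjn⟩).2 hj
        simp only [Function.comp_apply] at h4
        have h6 : a (σ ⟨j, hjn⟩) < j + 1 := h5
        omega
      have h4 := Finset.card_le_card h3
      rw [Finset.card_image_of_injective _ σ.injective, Fin.card_Iic] at h4
      exact h4
  · intro ha
    unfold SP at ha
    rw [Finset.mem_filter, Fintype.mem_piFinset] at ha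
    obtain ⟨h1, -, h2⟩ := ha
    rw [Finset.card_univ, Fintype.card_fin] at h2
    have hmono := Tuple.monotone_sort a
    refine ⟨Tuple.sort a, hmono, ?_⟩
    intro i
    constructor
    · intro hi
      have h3 := h1 (Tuple.sort a i)
      rw [Finset.mem_Icc] at h3
      rcases Nat.lt_or_ge 1 n with hn1 | hn1
      · have h4 := h2 1 le_rfl hn1
        have h5 : (Finset.univ.filter (fun i => a i ≤ 1)).Nonempty := by
          rw [← Finset.card_pos]
          omega
        obtain ⟨k, hk⟩ := h5
        rw [Finset.mem_filter] at hk
        have h6 : i ≤ (Tuple.sort a).symm k := by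
          rw [Fin.le_def]
          omega
        have h7 := hmono h6
        simp only [Function.comp_apply, Equiv.apply_symm_apply] at h7
        omega
      · omega
    · intro hi
      by_contra hcon
      have h3 := h2 i.val hi i.isLt
      have h4 : Finset.univ.filter (fun k => a k ≤ i.val) ⊆ (Finset.Iio i).image (Tuple.sort a) := by
        intro k hk
        rw [Finset.mem_filter] at hk
        rw [Finset.mem_image]
        refine ⟨(Tuple.sort a).symm k, ?_, Equiv.apply_symm_apply _ _⟩
        rw [Finset.mem_Iio]
        by_contra hlt
        have h5 := hmono (not_lt.1 hlt)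
        simp only [Function.comp_apply, Equiv.apply_symm_apply] at h5
        omega
      have h5 := Finset.card_le_card h4
      rw [Finset.card_image_of_injective _ (Tuple.sort a).injective, Fin.card_Iio] at h5
      omega

end Pool.Agent.Q228.SPF.TaskSph
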