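import Pool.Agent.Q228.SPF.Stmts
import Pool.Agent.Q228.SPF.TaskGeom

set_option autoImplicit false

open Finset
open scoped Classical

namespace Pool.Agent.Q228.SPF.TaskStar

open Pool.Agent.Q228.SPF

private theorem exch1 {α : Type} [LinearOrder α] (V S : Finset α) (f : Finset α → α → ℝ) :
    ∑ W ∈ V.powerset, ∑ k ∈ W ∩ S, f (W.erase k) k =
      ∑ k ∈ V ∩ S, ∑ U ∈ (V.erase k).powerset, f U k := by
  rw [Finset.sum_sigma', Finset.sum_sigma']
  refine Finset.sum_nbij' (fun x => ⟨x.2, x.1.erase x.2⟩) (fun x => ⟨insert x.1 x.2, x.1⟩)
    ?_ ?_ ?_ ?_ ?_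
  · rintro ⟨W, k⟩ hx
    simp only [mem_sigma, mem_powerset, mem_inter] at hx ⊢
    exact ⟨⟨hx.1 hx.2.1, hx.2.2⟩, Finset.erase_subset_erase _ hx.1⟩
  · rintro ⟨k, U⟩ hx
    simp only [mem_sigma, mem_powerset, mem_inter] at hx ⊢
    refine ⟨?_, mem_insert_self _ _, hx.1.2⟩
    intro x hxm
    rcases Finset.mem_insert.1 hxm with rfl | h
    · exact hx.1.1
    · exact Finset.mem_of_mem_erase (hx.2 h)
  · rintro ⟨W, k⟩ hx
    simp only [mem_sigma, mem_powerset, mem_inter] at hx
    simp only [Finset.insert_erase hx.2.1]
  · rintro ⟨k, U⟩ hx
    simp only [mem_sigma, mem_powerset, mem_inter] at hx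
    have : k ∉ U := fun h => (Finset.notMem_erase k V) (hx.2 h)
    simp only [Finset.erase_insert this]
  · rintro ⟨W, k⟩ _
    rfl

private theorem exch2 {α : Type} [LinearOrder α] (T : Finset α) (f : Finset α → Finset α → ℝ) :
    ∑ U ∈ T.powerset, ∑ B ∈ U.powerset, f B (U \ B) =
      ∑ B ∈ T.powerset, ∑ W ∈ (T \ B).powerset, f B W := by
  rw [Finset.sum_sigma', Finset.sum_sigma']
  refine Finset.sum_nbij' (fun x => ⟨x.2, x.1 \ x.2⟩) (fun x => ⟨x.1 ∪ x.2, x.1⟩)
    ?_ ?_ ?_ ?_ ?_
  · rintro ⟨U, B⟩ hx
    simp only [mem_sigma, mem_powerset] at hx ⊢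
    exact ⟨hx.2.trans hx.1, Finset.sdiff_subset_sdiff hx.1 (Finset.Subset.refl _)⟩
  · rintro ⟨B, W⟩ hx
    simp only [mem_sigma, mem_powerset] at hx ⊢
    exact ⟨Finset.union_subset hx.1 (hx.2.trans Finset.sdiff_subset), Finset.subset_union_left⟩
  · rintro ⟨U, B⟩ hx
    simp only [mem_sigma, mem_powerset] at hx
    simp only [Finset.union_sdiff_of_subset hx.2]
  · rintro ⟨B, W⟩ hx
    simp only [mem_sigma, mem_powerset] at hx
    have : Disjoint W B := Finset.disjoint_of_subset_left hx.2 Finset.sdiff_disjoint
    have h2 : (B ∪ W) \ B = W := by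
      rw [Finset.union_sdiff_left]
      exact Finset.sdiff_eq_self_of_disjoint this
    simp only [h2]
  · rintro ⟨U, B⟩ _
    rfl

private theorem h_congr {α : Type} [LinearOrder α] (q : ℝ) (V S S' : Finset α)
    (hS : ∀ v ∈ V, v ∈ S ↔ v ∈ S') : h q V S = h q V S' := by
  unfold h
  have : fo V S = fo V S' := by
    unfold fo
    refine Finset.filter_congr fun A _ => ?_
    unfold IsFo
    refine and_congr Iff.rfl (and_congr Iff.rfl (and_congr Iff.rfl (and_congr Iff.rfl ?_)))
    refine forall₂_congr fun v hv => ?_
    rw [hS v hv]
  rw [this]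

theorem main : Pool.Agent.Q228.SPF.TaskStar := by
  intro hRec hEmpty α _ q
  have H : ∀ (m : ℕ) (V S : Finset α), V.card = m → (∀ s ∈ S, ∀ v ∈ V, v < s → v ∈ S) →
      ∑ W ∈ V.powerset, (q - 1) ^ W.card * q ^ (V.card - W.card).choose 2 * h q W S =
        q ^ ((V ∩ S).card + V.card.choose 2) := by
    intro m
    induction m using Nat.strong_induction_on with
    | _ m ih =>
      intro V S hVm hlow
      have hsplit : ∀ W ∈ V.powerset,
          (q - 1) ^ W.card * q ^ (V.card - W.card).choose 2 * h q W S =
            (if W = ∅ then q ^ V.card.choose 2 else 0) +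
            ∑ k ∈ W ∩ S, (q - 1) ^ ((W.erase k).card + 1) *
              q ^ (V.card - ((W.erase k).card + 1)).choose 2 *
              ∑ B ∈ (W.erase k).powerset, q ^ (B.filter (· < k)).card * h q B B *
                h q ((W.erase k) \ B) (S.filter (· < k)) := by
        intro W _
        rcases W.eq_empty_or_nonempty with rfl | hW
        · simp [hEmpty α q S]
        · rw [if_neg hW.ne_empty, zero_add, hRec α q W S hW, Finset.mul_sum]
          refine Finset.sum_congr rfl fun k hk => ?_
          have hk' : k ∈ W := (Finset.mem_inter.1 hk).1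
          rw [Finset.card_erase_add_one hk']
      rw [Finset.sum_congr rfl hsplit, Finset.sum_add_distrib]
      have h1 : ∑ W ∈ V.powerset, (if W = ∅ then q ^ V.card.choose 2 else 0) =
          q ^ V.card.choose 2 := by
        rw [Finset.sum_ite_eq' V.powerset ∅]
        simp
      rw [h1]
      have h2 := exch1 V S (fun U k => (q - 1) ^ (U.card + 1) *
              q ^ (V.card - (U.card + 1)).choose 2 *
              ∑ B ∈ U.powerset, q ^ (B.filter (· < k)).card * h q B B *
                h q (U \ B) (S.filter (· < k)))
      rw [h2]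
      have h3 : ∀ k ∈ V ∩ S, ∑ U ∈ (V.erase k).powerset, (q - 1) ^ (U.card + 1) *
              q ^ (V.card - (U.card + 1)).choose 2 *
              ∑ B ∈ U.powerset, q ^ (B.filter (· < k)).card * h q B B *
                h q (U \ B) (S.filter (· < k)) =
            (q - 1) * q ^ (V.filter (· < k)).card * q ^ V.card.choose 2 := by
        intro k hk
        obtain ⟨hkV, hkS⟩ := Finset.mem_inter.1 hk
        have hVe : (V.erase k).card + 1 = V.card := Finset.card_erase_add_one hkV
        have e1 : ∀ U ∈ (V.erase k).powerset, (q - 1) ^ (U.card + 1) *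
              q ^ (V.card - (U.card + 1)).choose 2 *
              ∑ B ∈ U.powerset, q ^ (B.filter (· < k)).card * h q B B *
                h q (U \ B) (S.filter (· < k)) =
            ∑ B ∈ U.powerset, (q - 1) ^ (B.card + (U \ B).card + 1) *
              q ^ (V.card - (B.card + (U \ B).card + 1)).choose 2 *
                (q ^ (B.filter (· < k)).card * h q B B *
                h q (U \ B) (S.filter (· < k))) := by
          intro U _
          rw [Finset.mul_sum]
          refine Finset.sum_congr rfl fun B hB => ?_
          have : B.card + (U \ B).card = U.card := by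
            rw [Finset.card_sdiff_of_subset (Finset.mem_powerset.1 hB)]
            have := Finset.card_le_card (Finset.mem_powerset.1 hB)
            omega
          rw [this]
        rw [Finset.sum_congr rfl e1]
        have e2 := exch2 (V.erase k) (fun B W' => (q - 1) ^ (B.card + W'.card + 1) *
              q ^ (V.card - (B.card + W'.card + 1)).choose 2 *
                (q ^ (B.filter (· < k)).card * h q B B *
                h q W' (S.filter (· < k))))
        rw [e2]
        have e3 : ∀ B ∈ (V.erase k).powerset, ∑ W' ∈ ((V.erase k) \ B).powerset,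
            (q - 1) ^ (B.card + W'.card + 1) *
              q ^ (V.card - (B.card + W'.card + 1)).choose 2 *
                (q ^ (B.filter (· < k)).card * h q B B *
                h q W' (S.filter (· < k))) =
            (q - 1) * q ^ (V.filter (· < k)).card * ((q - 1) ^ B.card *
              q ^ ((V.erase k).card - B.card).choose 2 * h q B (V.erase k)) := by
          intro B hB
          have hBs := Finset.mem_powerset.1 hB
          have hBc := Finset.card_le_card hBs
          have hV' : ((V.erase k) \ B).card = (V.erase k).card - B.card :=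
            Finset.card_sdiff_of_subset hBs
          have hlt : ((V.erase k) \ B).card < m := by omega
          have hI := ih _ hlt ((V.erase k) \ B) (S.filter (· < k)) rfl (by
            intro s hs v hv hvs
            obtain ⟨hs1, hs2⟩ := Finset.mem_filter.1 hs
            have hvV : v ∈ V := Finset.mem_of_mem_erase (Finset.mem_sdiff.1 hv).1
            exact Finset.mem_filter.2 ⟨hlow s hs1 v hvV hvs, hvs.trans hs2⟩)
          have hcard : (((V.erase k) \ B) ∩ S.filter (· < k)).card +
              (B.filter (· < k)).card = (V.filter (· < k)).card := by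
            have hset : V.filter (· < k) = (((V.erase k) \ B) ∩ S.filter (· < k)) ∪
                B.filter (· < k) := by
              ext v
              simp only [Finset.mem_filter, Finset.mem_union, Finset.mem_inter,
                Finset.mem_sdiff, Finset.mem_erase]
              constructor
              · rintro ⟨hv1, hv2⟩
                by_cases hvB : v ∈ B
                · exact Or.inr ⟨hvB, hv2⟩
                · exact Or.inl ⟨⟨⟨hv2.ne, hv1⟩, hvB⟩, hlow k hkS v hv1 hv2, hv2⟩
              · rintro (⟨⟨⟨_, hv1⟩, _⟩, _, hv2⟩ | ⟨hv1, hv2⟩)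
                · exact ⟨hv1, hv2⟩
                · exact ⟨Finset.mem_of_mem_erase (hBs hv1), hv2⟩
            rw [hset, Finset.card_union_of_disjoint]
            rw [Finset.disjoint_left]
            intro v hv1 hv2
            exact (Finset.mem_sdiff.1 (Finset.mem_inter.1 hv1).1).2 (Finset.mem_filter.1 hv2).1
          have hterm : ∀ W' ∈ ((V.erase k) \ B).powerset,
              (q - 1) ^ (B.card + W'.card + 1) *
              q ^ (V.card - (B.card + W'.card + 1)).choose 2 *
                (q ^ (B.filter (· < k)).card * h q B B *
                h q W' (S.filter (· < k))) =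
              ((q - 1) * (q - 1) ^ B.card * q ^ (B.filter (· < k)).card * h q B B) *
                ((q - 1) ^ W'.card * q ^ (((V.erase k) \ B).card - W'.card).choose 2 *
                  h q W' (S.filter (· < k))) := by
            intro W' _
            have : V.card - (B.card + W'.card + 1) = ((V.erase k) \ B).card - W'.card := by
              omega
            rw [this, pow_succ, pow_add]
            ring
          rw [Finset.sum_congr rfl hterm, ← Finset.mul_sum, hI, ← hcard, hV',
            h_congr q B B (V.erase k) (fun v hv => ⟨fun _ => hBs hv, fun _ => hv⟩), pow_add, pow_add]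
          ring
        rw [Finset.sum_congr rfl e3, ← Finset.mul_sum]
        have hI2 := ih (V.erase k).card (by omega) (V.erase k) (V.erase k) rfl
          (fun s _ v hv _ => hv)
        rw [hI2, Finset.inter_self]
        have : (V.erase k).card + (V.erase k).card.choose 2 = V.card.choose 2 := by
          rw [← hVe, Nat.choose_succ_succ' _ 1, Nat.choose_one_right]
        rw [this]
      rw [Finset.sum_congr rfl h3, ← Finset.sum_mul, ← Finset.mul_sum]
      have hg := Pool.Agent.Q228.SPF.TaskGeom.main α q V S hlow
      rw [pow_add, ← hg]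
      ring
  intro V S hlow
  exact H V.card V S rfl hlow

end Pool.Agent.Q228.SPF.TaskStar
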