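import Pool.Agent.Q228.SPF.Stmts

set_option autoImplicit false

open Finset
open scoped Classical

namespace Pool.Agent.Q228.SPF.TaskStarB

/-- roots condition only depends on `W ∩ S` -/
private lemma h_inter {α : Type} [LinearOrder α] (q : ℝ) (W S : Finset α) :
    h q W S = h q W (W ∩ S) := by
  unfold h
  refine Finset.sum_congr ?_ fun _ _ => rfl
  ext A
  constructor
  · intro hA
    obtain ⟨hP, h0, h1, h2, h3, h4⟩ := Finset.mem_filter.1 hA
    exact Finset.mem_filter.2 ⟨hP, h0, h1, h2, h3,
      fun v hv hr => Finset.mem_inter.2 ⟨hv, h4 v hv hr⟩⟩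
  · intro hA
    obtain ⟨hP, h0, h1, h2, h3, h4⟩ := Finset.mem_filter.1 hA
    exact Finset.mem_filter.2 ⟨hP, h0, h1, h2, h3,
      fun v hv hr => (Finset.mem_inter.1 (h4 v hv hr)).2⟩

/-- geometric sum over a lower set -/
private lemma geom {α : Type} [LinearOrder α] (q : ℝ) (V : Finset α) : ∀ (S : Finset α),
    S ⊆ V → (∀ s ∈ S, ∀ v ∈ V, v < s → v ∈ S) →
    1 + (q - 1) * ∑ k ∈ S, q ^ (V.filter (· < k)).card = q ^ S.card := by
  intro S
  induction S using Finset.induction_on_max with
  | empty => intro _ _; simp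
  | insert a s ha ih =>
    intro hsub hlow
    have has : a ∉ s := fun hmem => lt_irrefl _ (ha a hmem)
    have hs : 1 + (q - 1) * ∑ k ∈ s, q ^ (V.filter (· < k)).card = q ^ s.card := by
      refine ih (fun x hx => hsub (Finset.mem_insert_of_mem hx)) ?_
      intro x hx v hv hvx
      have := hlow x (Finset.mem_insert_of_mem hx) v hv hvx
      rcases Finset.mem_insert.1 this with h | h
      · exact absurd (h ▸ hvx) (not_lt.2 (ha x hx).le)
      · exact h
    have hcard : (V.filter (· < a)) = s := by
      ext v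
      simp only [Finset.mem_filter]
      constructor
      · rintro ⟨hv, hva⟩
        have := hlow a (Finset.mem_insert_self _ _) v hv hva
        rcases Finset.mem_insert.1 this with h | h
        · exact absurd (h ▸ hva) (lt_irrefl _)
        · exact h
      · intro hv
        exact ⟨hsub (Finset.mem_insert_of_mem hv), ha v hv⟩
    rw [Finset.sum_insert has, Finset.card_insert_of_notMem has, hcard, mul_add, ← add_assoc,
      add_right_comm, hs, pow_succ]
    ring

private lemma swap {α : Type} [LinearOrder α] (V S : Finset α)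
    (F : α → Finset α → Finset α → ℝ) :
    ∑ W ∈ V.powerset, ∑ k ∈ W ∩ S, ∑ B ∈ (W.erase k).powerset, F k B ((W.erase k) \ B) =
      ∑ k ∈ V ∩ S, ∑ B ∈ (V.erase k).powerset, ∑ W' ∈ ((V.erase k) \ B).powerset, F k B W' := by
  have e1 : ∑ W ∈ V.powerset, ∑ k ∈ W ∩ S, ∑ B ∈ (W.erase k).powerset, F k B ((W.erase k) \ B) =
      ∑ x ∈ (V.powerset.sigma fun W => (W ∩ S).sigma fun k => (W.erase k).powerset),
        F x.2.1 x.2.2 ((x.1.erase x.2.1) \ x.2.2) := by
    rw [Finset.sum_sigma]
    refine Finset.sum_congr rfl fun W _ => ?_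
    rw [Finset.sum_sigma]
  have e2 : ∑ k ∈ V ∩ S, ∑ B ∈ (V.erase k).powerset, ∑ W' ∈ ((V.erase k) \ B).powerset, F k B W' =
      ∑ x ∈ ((V ∩ S).sigma fun k => (V.erase k).powerset.sigma fun B =>
        ((V.erase k) \ B).powerset), F x.1 x.2.1 x.2.2 := by
    rw [Finset.sum_sigma]
    refine Finset.sum_congr rfl fun k _ => ?_
    rw [Finset.sum_sigma]
  rw [e1, e2]
  refine Finset.sum_bij' (fun x _ => ⟨x.2.1, x.2.2, (x.1.erase x.2.1) \ x.2.2⟩)
    (fun x _ => ⟨insert x.1 (x.2.1 ∪ x.2.2), x.1, x.2.1⟩) ?_ ?_ ?_ ?_ ?_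
  · rintro ⟨W, k, B⟩ hx
    simp only [Finset.mem_sigma, Finset.mem_powerset, Finset.mem_inter] at hx ⊢
    obtain ⟨hW, ⟨hk, hkS⟩, hB⟩ := hx
    refine ⟨⟨hW hk, hkS⟩, hB.trans (Finset.erase_subset_erase _ hW), ?_⟩
    exact Finset.sdiff_subset_sdiff (Finset.erase_subset_erase _ hW) le_rfl
  · rintro ⟨k, B, W'⟩ hx
    simp only [Finset.mem_sigma, Finset.mem_powerset, Finset.mem_inter] at hx ⊢
    obtain ⟨⟨hk, hkS⟩, hB, hW'⟩ := hx
    have hW'2 : W' ⊆ V.erase k := hW'.trans Finset.sdiff_subset
    refine ⟨?_, ⟨Finset.mem_insert_self _ _, hkS⟩, ?_⟩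
    · intro v hv
      rcases Finset.mem_insert.1 hv with h | h
      · rw [h]; exact hk
      · rcases Finset.mem_union.1 h with h | h
        · exact (Finset.mem_erase.1 (hB h)).2
        · exact (Finset.mem_erase.1 (hW'2 h)).2
    · intro v hv
      refine Finset.mem_erase.2 ⟨(Finset.mem_erase.1 (hB hv)).1, ?_⟩
      exact Finset.mem_insert_of_mem (Finset.mem_union_left _ hv)
  · rintro ⟨W, k, B⟩ hx
    simp only [Finset.mem_sigma, Finset.mem_powerset, Finset.mem_inter] at hx
    obtain ⟨hW, ⟨hk, hkS⟩, hB⟩ := hx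
    have : insert k (B ∪ (W.erase k) \ B) = W := by
      rw [Finset.union_sdiff_of_subset hB, Finset.insert_erase hk]
    simp only [this]
  · rintro ⟨k, B, W'⟩ hx
    simp only [Finset.mem_sigma, Finset.mem_powerset, Finset.mem_inter] at hx
    obtain ⟨⟨hk, hkS⟩, hB, hW'⟩ := hx
    have : (insert k (B ∪ W')).erase k \ B = W' := by
      ext v
      simp only [Finset.mem_sdiff, Finset.mem_erase, Finset.mem_insert, Finset.mem_union]
      constructor
      · rintro ⟨⟨h1, h2⟩, h3⟩
        rcases h2 with h | h | h
        · exact absurd h h1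
        · exact absurd h h3
        · exact h
      · intro hv
        have h1 := Finset.mem_sdiff.1 (hW' hv)
        exact ⟨⟨(Finset.mem_erase.1 h1.1).1, Or.inr (Or.inr hv)⟩, h1.2⟩
    simp only [this]
  · rintro ⟨W, k, B⟩ hx
    rfl

theorem main : Pool.Agent.Q228.SPF.TaskStar := by
  intro hrec hemp α _ q
  have main : ∀ (N : ℕ) (V S : Finset α), V.card = N →
      (∀ s ∈ S, ∀ v ∈ V, v < s → v ∈ S) →
      ∑ W ∈ V.powerset, (q - 1) ^ W.card * q ^ (V.card - W.card).choose 2 * h q W S =
        q ^ ((V ∩ S).card + V.card.choose 2) := by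
    intro N
    induction N using Nat.strong_induction_on with
    | _ N ih =>
    intro V S hN hlow
    -- split off `W = ∅`
    have hmem : (∅ : Finset α) ∈ V.powerset := Finset.empty_mem_powerset V
    rw [← Finset.add_sum_erase _ _ hmem]
    have h0 : (q - 1) ^ (∅ : Finset α).card * q ^ (V.card - (∅ : Finset α).card).choose 2 *
        h q ∅ S = q ^ V.card.choose 2 := by
      rw [hemp α q S]; simp
    rw [h0]
    have h1 : ∑ W ∈ V.powerset.erase ∅, (q - 1) ^ W.card * q ^ (V.card - W.card).choose 2 *
        h q W S = ∑ W ∈ V.powerset, ∑ k ∈ W ∩ S, ∑ B ∈ (W.erase k).powerset,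
          ((q - 1) * (q - 1) ^ B.card * (q - 1) ^ ((W.erase k) \ B).card *
            q ^ (((V.erase k) \ B).card - ((W.erase k) \ B).card).choose 2 *
            (q ^ (B.filter (· < k)).card * h q B B * h q ((W.erase k) \ B) (S.filter (· < k)))) := by
      rw [← Finset.add_sum_erase V.powerset _ hmem]
      have hz : ∑ k ∈ (∅ : Finset α) ∩ S, ∑ B ∈ ((∅ : Finset α).erase k).powerset,
          ((q - 1) * (q - 1) ^ B.card * (q - 1) ^ (((∅ : Finset α).erase k) \ B).card *
            q ^ (((V.erase k) \ B).card - (((∅ : Finset α).erase k) \ B).card).choose 2 *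
            (q ^ (B.filter (· < k)).card * h q B B *
              h q (((∅ : Finset α).erase k) \ B) (S.filter (· < k)))) = 0 := by
        rw [Finset.empty_inter, Finset.sum_empty]
      rw [hz, zero_add]
      refine Finset.sum_congr rfl fun W hW => ?_
      obtain ⟨hWne, hWV⟩ := Finset.mem_erase.1 hW
      rw [Finset.mem_powerset] at hWV
      have hne : W.Nonempty := Finset.nonempty_iff_ne_empty.2 hWne
      rw [hrec α q W S hne, Finset.mul_sum]
      refine Finset.sum_congr rfl fun k hk => ?_
      rw [Finset.mul_sum]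
      refine Finset.sum_congr rfl fun B hB => ?_
      rw [Finset.mem_powerset] at hB
      obtain ⟨hkW, hkS⟩ := Finset.mem_inter.1 hk
      have c1 : ((W.erase k) \ B).card = W.card - 1 - B.card := by
        rw [Finset.card_sdiff_of_subset hB, Finset.card_erase_of_mem hkW]
      have c2 : ((V.erase k) \ B).card = V.card - 1 - B.card := by
        rw [Finset.card_sdiff_of_subset (hB.trans (Finset.erase_subset_erase _ hWV)),
          Finset.card_erase_of_mem (hWV hkW)]
      have c3 : B.card ≤ W.card - 1 := by
        rw [← Finset.card_erase_of_mem hkW]; exact Finset.card_le_card hB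
      have c4 : 1 ≤ W.card := Finset.card_pos.2 hne
      have c5 : W.card ≤ V.card := Finset.card_le_card hWV
      have c6 : ((V.erase k) \ B).card - ((W.erase k) \ B).card = V.card - W.card := by
        rw [c1, c2]; omega
      have c7 : (q - 1) ^ W.card = (q - 1) * (q - 1) ^ B.card *
          (q - 1) ^ ((W.erase k) \ B).card := by
        rw [c1, ← pow_succ', ← pow_add]; congr 1; omega
      rw [c6, c7]
    rw [h1]
    rw [swap V S (fun k B W' => ((q - 1) * (q - 1) ^ B.card * (q - 1) ^ W'.card *
            q ^ (((V.erase k) \ B).card - W'.card).choose 2 *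
            (q ^ (B.filter (· < k)).card * h q B B * h q W' (S.filter (· < k)))))]
    -- evaluate for fixed `k`
    have h2 : ∀ k ∈ V ∩ S, ∑ B ∈ (V.erase k).powerset, ∑ W' ∈ ((V.erase k) \ B).powerset,
        ((q - 1) * (q - 1) ^ B.card * (q - 1) ^ W'.card *
            q ^ (((V.erase k) \ B).card - W'.card).choose 2 *
            (q ^ (B.filter (· < k)).card * h q B B * h q W' (S.filter (· < k)))) =
        (q - 1) * q ^ (V.filter (· < k)).card * q ^ V.card.choose 2 := by
      intro k hk
      obtain ⟨hkV, hkS⟩ := Finset.mem_inter.1 hk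
      have hVpos : 1 ≤ V.card := Finset.card_pos.2 ⟨k, hkV⟩
      have hce : (V.erase k).card = V.card - 1 := Finset.card_erase_of_mem hkV
      have h3 : ∀ B ∈ (V.erase k).powerset, ∑ W' ∈ ((V.erase k) \ B).powerset,
          ((q - 1) * (q - 1) ^ B.card * (q - 1) ^ W'.card *
            q ^ (((V.erase k) \ B).card - W'.card).choose 2 *
            (q ^ (B.filter (· < k)).card * h q B B * h q W' (S.filter (· < k)))) =
          (q - 1) * q ^ (V.filter (· < k)).card * ((q - 1) ^ B.card *
            q ^ ((V.erase k).card - B.card).choose 2 * h q B (V.erase k)) := by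
        intro B hB
        rw [Finset.mem_powerset] at hB
        have hlt : ((V.erase k) \ B).card < N := by
          rw [← hN]
          refine lt_of_le_of_lt (Finset.card_le_card Finset.sdiff_subset) ?_
          rw [hce]; omega
        have := ih _ hlt ((V.erase k) \ B) (S.filter (· < k)) rfl (by
          intro s hs v hv hvs
          obtain ⟨hs1, hs2⟩ := Finset.mem_filter.1 hs
          refine Finset.mem_filter.2 ⟨?_, hvs.trans hs2⟩
          exact hlow s hs1 v (Finset.mem_erase.1 (Finset.mem_sdiff.1 hv).1).2 hvs)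
        have hI : ((V.erase k) \ B) ∩ S.filter (· < k) = ((V.erase k) \ B).filter (· < k) := by
          ext v
          simp only [Finset.mem_inter, Finset.mem_filter]
          constructor
          · rintro ⟨h1, h2, h3⟩; exact ⟨h1, h3⟩
          · rintro ⟨h1, h3⟩
            exact ⟨h1, hlow k hkS v (Finset.mem_erase.1 (Finset.mem_sdiff.1 h1).1).2 h3, h3⟩
        rw [hI] at this
        have hsum : (B.filter (· < k)).card + (((V.erase k) \ B).filter (· < k)).card =
            (V.filter (· < k)).card := by
          rw [← Finset.card_union_of_disjoint]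
          · congr 1
            ext v
            simp only [Finset.mem_union, Finset.mem_filter, Finset.mem_sdiff, Finset.mem_erase]
            constructor
            · rintro (⟨h1, h2⟩ | ⟨⟨⟨h1, h2⟩, h3⟩, h4⟩)
              · exact ⟨(Finset.mem_erase.1 (hB h1)).2, h2⟩
              · exact ⟨h2, h4⟩
            · rintro ⟨h1, h2⟩
              by_cases hvB : v ∈ B
              · exact Or.inl ⟨hvB, h2⟩
              · exact Or.inr ⟨⟨⟨ne_of_lt h2, h1⟩, hvB⟩, h2⟩
          · rw [Finset.disjoint_left]
            intro v h1 h2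
            exact (Finset.mem_sdiff.1 (Finset.mem_filter.1 h2).1).2 (Finset.mem_filter.1 h1).1
        have hcB : ((V.erase k) \ B).card = (V.erase k).card - B.card :=
          Finset.card_sdiff_of_subset hB
        have hBB : h q B B = h q B (V.erase k) := by
          rw [h_inter q B (V.erase k), Finset.inter_eq_left.2 hB]
        calc _ = (q - 1) * (q - 1) ^ B.card * (q ^ (B.filter (· < k)).card * h q B B) *
              ∑ W' ∈ ((V.erase k) \ B).powerset, (q - 1) ^ W'.card *
                q ^ (((V.erase k) \ B).card - W'.card).choose 2 * h q W' (S.filter (· < k)) := by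
              rw [Finset.mul_sum]
              refine Finset.sum_congr rfl fun W' _ => ?_
              ring
          _ = _ := by
              rw [this, pow_add, hBB, ← hsum, pow_add, hcB]
              ring
      rw [Finset.sum_congr rfl h3, ← Finset.mul_sum]
      have := ih (V.card - 1) (by omega) (V.erase k) (V.erase k) hce (fun s _ v hv _ => hv)
      rw [this, Finset.inter_self, hce]
      have : V.card - 1 + (V.card - 1).choose 2 = V.card.choose 2 := by
        obtain ⟨m, hm⟩ := Nat.exists_eq_succ_of_ne_zero (by omega : V.card ≠ 0)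
        rw [hm, Nat.succ_sub_one, Nat.succ_eq_add_one, Nat.choose_succ_succ' m 1, Nat.choose_one_right]
      rw [this]
    rw [Finset.sum_congr rfl h2, ← Finset.sum_mul, ← Finset.mul_sum]
    have hg := geom q V (V ∩ S) Finset.inter_subset_left (by
      intro s hs v hv hvs
      exact Finset.mem_inter.2 ⟨hv, hlow s (Finset.mem_inter.1 hs).2 v hv hvs⟩)
    rw [pow_add, ← hg]
    ring
  intro V S hlow
  exact main V.card V S rfl hlow

end Pool.Agent.Q228.SPF.TaskStarB
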