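import Pool.Agent.Q228.SPF.Stmts
set_option autoImplicit false

open Finset
open scoped Classical

namespace Pool.Agent.Q228.SPF.TaskSurj

open Pool.Agent.Q228.SPF

/-- a nonempty finite set with an irreflexive transitive relation has a root -/
private theorem exists_root {α : Type} [LinearOrder α] (V : Finset α) (A : Finset (α × α))
    (hV : V.Nonempty) (hA : A ⊆ V ×ˢ V) (hi : ∀ x ∈ A, x.1 ≠ x.2)
    (ht : ∀ a b c, (a, b) ∈ A → (b, c) ∈ A → (a, c) ∈ A) : ∃ v ∈ V, ∀ u, (u, v) ∉ A := by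
  obtain ⟨v, hv, hmin⟩ := exists_min_image V (fun v => (V.filter fun u => (u, v) ∈ A).card) hV
  refine ⟨v, hv, fun u hu => ?_⟩
  have huV : u ∈ V := (mem_product.1 (hA hu)).1
  have h1 := hmin u huV
  have h2 : (V.filter fun w => (w, u) ∈ A) ⊂ (V.filter fun w => (w, v) ∈ A) := by
    rw [Finset.ssubset_iff_of_subset]
    · refine ⟨u, mem_filter.2 ⟨huV, hu⟩, fun h => ?_⟩
      exact hi _ (mem_filter.1 h).2 rfl
    · intro w hw
      rw [mem_filter] at hw ⊢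
      exact ⟨hw.1, ht _ _ _ hw.2 hu⟩
  exact absurd (card_lt_card h2) (not_lt.2 h1)

theorem main : Pool.Agent.Q228.SPF.TaskSurj := by
  intro α _ V S A hV hA
  obtain ⟨hp, hVV, hi, ht, hc, hr⟩ := mem_filter.1 hA
  obtain ⟨v0, hv0, hv0r⟩ := exists_root V A hV hVV hi ht
  have hR : (V.filter fun v => ∀ u, (u, v) ∉ A).Nonempty := ⟨v0, mem_filter.2 ⟨hv0, hv0r⟩⟩
  obtain ⟨k, hkR, hkmax⟩ := exists_max_image (V.filter fun v => ∀ u, (u, v) ∉ A) id hR
  obtain ⟨hkV, hkr⟩ := mem_filter.1 hkR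
  have hmemV : ∀ a b, (a, b) ∈ A → a ∈ V ∧ b ∈ V := fun a b h => mem_product.1 (hVV h)
  have hB : ∀ v, v ∈ V.filter (fun v => (k, v) ∈ A) ↔ (k, v) ∈ A := fun v =>
    ⟨fun h => (mem_filter.1 h).2, fun h => mem_filter.2 ⟨(hmemV _ _ h).2, h⟩⟩
  generalize V.filter (fun v => (k, v) ∈ A) = B at hB
  have hV' : ∀ v, v ∈ (V.erase k) \ B ↔ v ≠ k ∧ v ∈ V ∧ (k, v) ∉ A := fun v => by
    rw [mem_sdiff, mem_erase, hB]; tauto
  refine ⟨k, B, A.filter (fun x => x.1 ∈ B ∧ x.2 ∈ B),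
    A.filter (fun x => x.1 ∈ (V.erase k) \ B ∧ x.2 ∈ (V.erase k) \ B), hkV, hr k hkV hkr, ?_, ?_, ?_, ?_⟩
  · intro v hv
    rw [hB] at hv
    exact mem_erase.2 ⟨fun h => hi _ hv h.symm, (hmemV _ _ hv).2⟩
  · refine mem_filter.2 ⟨mem_powerset.2 fun x hx => mem_product.2 (mem_filter.1 hx).2,
      fun x hx => mem_product.2 (mem_filter.1 hx).2, fun x hx => hi x (mem_filter.1 hx).1, ?_, ?_, ?_⟩
    · intro a b c h1 h2
      rw [mem_filter] at h1 h2 ⊢
      exact ⟨ht _ _ _ h1.1 h2.1, h1.2.1, h2.2.2⟩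
    · intro a b c h1 h2
      rw [mem_filter] at h1 h2
      rw [mem_filter, mem_filter]
      rcases hc _ _ _ h1.1 h2.1 with h | h | h
      · exact Or.inl h
      · exact Or.inr (Or.inl ⟨h, h1.2.1, h2.2.1⟩)
      · exact Or.inr (Or.inr ⟨h, h2.2.1, h1.2.1⟩)
    · exact fun v hv _ => hv
  · refine mem_filter.2 ⟨mem_powerset.2 fun x hx => mem_product.2 (mem_filter.1 hx).2,
      fun x hx => mem_product.2 (mem_filter.1 hx).2, fun x hx => hi x (mem_filter.1 hx).1, ?_, ?_, ?_⟩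
    · intro a b c h1 h2
      rw [mem_filter] at h1 h2 ⊢
      exact ⟨ht _ _ _ h1.1 h2.1, h1.2.1, h2.2.2⟩
    · intro a b c h1 h2
      rw [mem_filter] at h1 h2
      rw [mem_filter, mem_filter]
      rcases hc _ _ _ h1.1 h2.1 with h | h | h
      · exact Or.inl h
      · exact Or.inr (Or.inl ⟨h, h1.2.1, h2.2.1⟩)
      · exact Or.inr (Or.inr ⟨h, h2.2.1, h1.2.1⟩)
    · intro v hv hroot
      have hv' := (hV' v).1 hv
      have hvr : ∀ u, (u, v) ∉ A := by
        intro u hu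
        refine hroot u (mem_filter.2 ⟨hu, (hV' u).2 ⟨?_, (hmemV _ _ hu).1, ?_⟩, hv⟩)
        · rintro rfl; exact hv'.2.2 hu
        · intro hku; exact hv'.2.2 (ht _ _ _ hku hu)
      refine mem_filter.2 ⟨hr v hv'.2.1 hvr, ?_⟩
      exact lt_of_le_of_ne (hkmax v (mem_filter.2 ⟨hv'.2.1, hvr⟩)) hv'.1
  · unfold join
    ext ⟨a, b⟩
    simp only [mem_union, mem_filter, mem_product, mem_singleton]
    constructor
    · intro h
      obtain ⟨ha, hb⟩ := hmemV _ _ h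
      by_cases hak : a = k
      · subst hak
        exact Or.inl (Or.inr ⟨rfl, (hB b).2 h⟩)
      by_cases haB : (k, a) ∈ A
      · exact Or.inl (Or.inl ⟨h, (hB a).2 haB, (hB b).2 (ht _ _ _ haB h)⟩)
      · refine Or.inr ⟨h, (hV' a).2 ⟨hak, ha, haB⟩, (hV' b).2 ⟨?_, hb, ?_⟩⟩
        · rintro rfl; exact hkr a h
        · intro hkb
          rcases hc _ _ _ h hkb with h1 | h1 | h1
          · exact hak h1
          · exact hkr a h1
          · exact haB h1
    · rintro ((h | h) | h)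
      · exact h.1
      · obtain ⟨rfl, hb⟩ := h
        exact (hB b).1 hb
      · exact h.1

end Pool.Agent.Q228.SPF.TaskSurj
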