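import Pool.Agent.Q228.SPF.Stmts

/-! Proof of `TaskTree` (MP_dc922b_co), helper240. -/

set_option autoImplicit false

open Finset
open scoped Classical

noncomputable section

namespace Pool.Agent.Q228.SPF.TaskTree

open Pool.Agent.Q228.SPF

private theorem surf_eq {n : ℕ} (r : Fin n) (p : Fin n → Fin n) :
    surf r p = inv (ancS r p) := by
  unfold surf inv ancS
  congr 1
  ext x
  simp only [Finset.mem_filter, Finset.mem_univ, true_and]
  tauto

theorem main : Pool.Agent.Q228.SPF.TaskTree := by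
  intro hA hI hS n k
  rw [← Fintype.card_coe, ← Nat.card_eq_fintype_card]
  let f : {T : Fin n × (Fin n → Fin n) // IsUprooted T.1 T.2 ∧ surf T.1 T.2 = k} →
      {x // x ∈ ((Finset.univ : Finset (Fin n)).sigma fun r =>
        fo (Finset.univ.erase r) (Finset.univ.filter (· < r))).filter fun x => inv x.2 = k} :=
    fun T => ⟨⟨T.1.1, ancS T.1.1 T.1.2⟩, by
      rw [Finset.mem_filter, Finset.mem_sigma]
      refine ⟨⟨Finset.mem_univ _, hA n T.1.1 T.1.2 T.2.1⟩, ?_⟩
      rw [← surf_eq]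
      exact T.2.2⟩
  apply Nat.card_eq_of_bijective f
  constructor
  · rintro ⟨⟨r, p⟩, h1⟩ ⟨⟨r', p'⟩, h2⟩ h
    have h3 := congrArg Subtype.val h
    simp only [f, Sigma.mk.injEq] at h3
    obtain ⟨h4, h5⟩ := h3
    subst h4
    have h6 := eq_of_heq h5
    have h7 := hI n r p p' h1.1 h2.1 h6
    subst h7
    rfl
  · rintro ⟨⟨r, A⟩, h⟩
    have h0 := h
    rw [Finset.mem_filter, Finset.mem_sigma] at h0
    obtain ⟨p, hp, hpA⟩ := hS n r A h0.1.2
    refine ⟨⟨(r, p), hp, ?_⟩, ?_⟩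
    · show surf r p = k
      rw [surf_eq, hpA]
      exact h0.2
    · apply Subtype.ext
      show (⟨r, ancS r p⟩ : (_ : Fin n) × Finset (Fin n × Fin n)) = ⟨r, A⟩
      rw [hpA]

end Pool.Agent.Q228.SPF.TaskTree
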