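import Pool.Agent.Q228.SPF.Stmts

set_option autoImplicit false

open Finset
open scoped Classical

namespace Pool.Agent.Q228.SPF.TaskU

private theorem h_congr {α : Type} [LinearOrder α] (q : ℝ) (W S T : Finset α)
    (hst : ∀ v ∈ W, (v ∈ T ↔ v ∈ S)) : h q W T = h q W S := by
  have e : fo W T = fo W S := by
    unfold fo
    refine Finset.filter_congr fun A _ => ?_
    unfold IsFo
    constructor
    · rintro ⟨a1, a2, a3, a4, a5⟩
      exact ⟨a1, a2, a3, a4, fun v hv hu => (hst v hv).mp (a5 v hv hu)⟩
    · rintro ⟨a1, a2, a3, a4, a5⟩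
      exact ⟨a1, a2, a3, a4, fun v hv hu => (hst v hv).mpr (a5 v hv hu)⟩
  unfold h
  rw [e]

private theorem key (α : Type) [LinearOrder α] [Fintype α] (q : ℝ)
    (hstar : ∀ (V S : Finset α), (∀ s ∈ S, ∀ v ∈ V, v < s → v ∈ S) →
      ∑ W ∈ V.powerset, (q - 1) ^ W.card * q ^ (V.card - W.card).choose 2 * h q W S =
        q ^ ((V ∩ S).card + V.card.choose 2)) :
    ∑ W ∈ (univ : Finset α).powerset,
        (q - 1) ^ W.card * q ^ (Fintype.card α - W.card).choose 2 * U q W =
      ∑ r : α, (q - 1) * (q ^ ((univ : Finset α).filter (· < r)).card *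
        q ^ (Fintype.card α - 1).choose 2) := by
  have e1 : ∀ W : Finset α,
      (q - 1) ^ W.card * q ^ (Fintype.card α - W.card).choose 2 * U q W =
      ∑ r ∈ W, (q - 1) ^ W.card * q ^ (Fintype.card α - W.card).choose 2 *
        h q (W.erase r) (W.filter (· < r)) := by
    intro W
    unfold U
    rw [Finset.mul_sum]
  rw [Finset.sum_congr rfl fun W _ => e1 W]
  rw [Finset.sum_comm' (t' := (univ : Finset α))
    (s' := fun r => ((univ : Finset α).powerset).filter fun W => r ∈ W) (by
      intro W r
      simp)]
  refine Finset.sum_congr rfl fun r _ => ?_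
  have hV : (univ.erase r : Finset α).card = Fintype.card α - 1 := by
    rw [Finset.card_erase_of_mem (Finset.mem_univ r), Finset.card_univ]
  have hs := hstar (univ.erase r) ((univ : Finset α).filter (· < r)) (by
    intro s hs v _ hvs
    have h1 := (Finset.mem_filter.mp hs).2
    exact Finset.mem_filter.mpr ⟨Finset.mem_univ v, hvs.trans h1⟩)
  have hint : ((univ.erase r : Finset α) ∩ (univ : Finset α).filter (· < r)) =
      (univ : Finset α).filter (· < r) := by
    ext v
    simp only [Finset.mem_inter, Finset.mem_erase, Finset.mem_univ, Finset.mem_filter, true_and,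
      and_true]
    constructor
    · rintro ⟨_, h2⟩
      exact h2
    · intro h2
      exact ⟨ne_of_lt h2, h2⟩
  rw [hint, hV, pow_add] at hs
  rw [← hs, Finset.mul_sum]
  refine Finset.sum_nbij' (fun W => W.erase r) (fun W => insert r W) ?_ ?_ ?_ ?_ ?_
  · intro W hW
    simp only [Finset.mem_powerset]
    exact Finset.erase_subset_erase r (Finset.subset_univ W)
  · intro W hW
    simp only [Finset.mem_filter, Finset.mem_powerset, Finset.subset_univ, true_and]
    exact Finset.mem_insert_self r W
  · intro W hW
    have hr : r ∈ W := (Finset.mem_filter.mp hW).2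
    exact Finset.insert_erase hr
  · intro W hW
    have hr : r ∉ W := by
      intro hr
      have := Finset.mem_powerset.mp hW hr
      exact absurd rfl (Finset.mem_erase.mp this).1
    exact Finset.erase_insert hr
  · intro W hW
    have hr : r ∈ W := (Finset.mem_filter.mp hW).2
    have hc : W.card = (W.erase r).card + 1 := by
      rw [Finset.card_erase_of_mem hr]
      have := Finset.card_pos.mpr ⟨r, hr⟩
      omega
    have hh : h q (W.erase r) (W.filter (· < r)) =
        h q (W.erase r) ((univ : Finset α).filter (· < r)) := by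
      refine h_congr q _ _ _ fun v hv => ?_
      have hvW := (Finset.mem_erase.mp hv).2
      simp only [Finset.mem_filter, Finset.mem_univ, true_and, hvW]
    rw [hh, hc, pow_succ]
    have e2 : Fintype.card α - ((W.erase r).card + 1) = Fintype.card α - 1 - (W.erase r).card := by
      omega
    rw [e2]
    ring

theorem main : Pool.Agent.Q228.SPF.TaskU := by
  intro hstar hcard n q hn hq
  have h1 := key (Fin n) q (fun V S hVS => hstar (Fin n) q V S hVS)
  have h2 : ∑ W ∈ (univ : Finset (Fin n)).powerset,
      (q - 1) ^ W.card * q ^ (Fintype.card (Fin n) - W.card).choose 2 * U q W =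
      ∑ m ∈ Finset.range (n + 1), (n.choose m : ℝ) * q ^ (n - m).choose 2 * (q - 1) ^ m * Ug q m := by
    have h3 : ∀ W ∈ (univ : Finset (Fin n)).powerset,
        (q - 1) ^ W.card * q ^ (Fintype.card (Fin n) - W.card).choose 2 * U q W =
        (fun m : ℕ => (q - 1) ^ m * q ^ (n - m).choose 2 * Ug q m) W.card := by
      intro W _
      simp only [Fintype.card_fin]
      rw [hcard n q W]
    rw [Finset.sum_congr rfl h3]
    have h6 := Finset.sum_powerset_apply_card
      (fun m : ℕ => (q - 1) ^ m * q ^ (n - m).choose 2 * Ug q m) (x := (univ : Finset (Fin n)))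
    rw [Finset.card_univ, Fintype.card_fin] at h6
    refine h6.trans (Finset.sum_congr rfl fun m _ => ?_)
    rw [nsmul_eq_mul]
    ring
  have h0 : Ug q 0 = 0 := by
    unfold Ug U
    simp
  have h4 : ∑ m ∈ Finset.range (n + 1), (n.choose m : ℝ) * q ^ (n - m).choose 2 * (q - 1) ^ m * Ug q m =
      ∑ m ∈ Finset.Icc 1 n, (n.choose m : ℝ) * q ^ (n - m).choose 2 * (q - 1) ^ m * Ug q m := by
    symm
    refine Finset.sum_subset ?_ ?_
    · intro m hm
      have := Finset.mem_Icc.mp hm
      exact Finset.mem_range.mpr (by omega)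
    · intro m hm hm2
      have hm0 : m = 0 := by
        by_contra hne
        exact hm2 (Finset.mem_Icc.mpr ⟨Nat.one_le_iff_ne_zero.mpr hne, by
          have := Finset.mem_range.mp hm
          omega⟩)
      rw [hm0, h0, mul_zero]
  rw [← h4, ← h2, h1]
  have h5 : ∀ r : Fin n, ((univ : Finset (Fin n)).filter (· < r)).card = r.val := by
    intro r
    have : (univ : Finset (Fin n)).filter (· < r) = Finset.Iio r := by
      ext v
      simp
    rw [this, Fin.card_Iio]
  simp only [h5, Fintype.card_fin]
  rw [← Finset.mul_sum, ← Finset.sum_mul, Fin.sum_univ_eq_sum_range (fun i => q ^ i) n]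
  have hg := mul_geom_sum q n
  rw [← mul_assoc, hg]

end Pool.Agent.Q228.SPF.TaskU
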