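import Mathlib
import Pool.Agent.Q228.SPF.Stmts

/-!
# MP_dc922b_co: `U` of a finite set of vertices depends only on its size
-/

set_option autoImplicit false

open Finset
open scoped Classical

noncomputable section

namespace Pool.Agent.Q228.SPF.TaskUCard

theorem main : Pool.Agent.Q228.SPF.TaskUCard := by
  intro hIso n q W
  have hW : Finset.univ.image (W.orderEmbOfFin rfl) = W := Finset.image_orderEmbOfFin_univ W rfl
  have hinj : Function.Injective (W.orderEmbOfFin rfl) := (W.orderEmbOfFin rfl).injective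
  have hmono : StrictMono (W.orderEmbOfFin rfl) := (W.orderEmbOfFin rfl).strictMono
  have hsum : U q W = ∑ r : Fin W.card,
      h q (W.erase (W.orderEmbOfFin rfl r)) (W.filter (· < W.orderEmbOfFin rfl r)) := by
    unfold U
    conv_lhs => rw [← Finset.sum_attach]
    symm
    refine Finset.sum_bij (fun (r : Fin W.card) _ =>
      (⟨W.orderEmbOfFin rfl r, Finset.orderEmbOfFin_mem W rfl r⟩ : {x // x ∈ W})) ?_ ?_ ?_ ?_
    · intro r _
      exact Finset.mem_attach _ _
    · intro r _ r' _ hrr
      exact hinj (Subtype.ext_iff.mp hrr)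
    · rintro ⟨x, hx⟩ _
      have hx2 : x ∈ Finset.univ.image (W.orderEmbOfFin rfl) := by rw [hW]; exact hx
      obtain ⟨r, _, hr⟩ := Finset.mem_image.mp hx2
      exact ⟨r, Finset.mem_univ _, Subtype.ext hr⟩
    · intro r _
      rfl
  rw [hsum]
  unfold Ug U
  refine Finset.sum_congr rfl (fun r _ => ?_)
  rw [← hIso (Fin W.card) (Fin n) (W.orderEmbOfFin rfl) q _ _ hmono]
  congr 1
  · ext x
    simp only [Finset.mem_erase, Finset.mem_image, Finset.mem_univ, and_true]
    constructor
    · rintro ⟨h1, h2⟩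
      have hx2 : x ∈ Finset.univ.image (W.orderEmbOfFin rfl) := by rw [hW]; exact h2
      obtain ⟨s, _, hs⟩ := Finset.mem_image.mp hx2
      refine ⟨s, ?_, hs⟩
      rintro rfl
      exact h1 hs.symm
    · rintro ⟨s, h1, rfl⟩
      exact ⟨fun h2 => h1 (hinj h2), Finset.orderEmbOfFin_mem W rfl s⟩
  · ext x
    simp only [Finset.mem_filter, Finset.mem_image, Finset.mem_univ, true_and]
    constructor
    · rintro ⟨h2, h1⟩
      have hx2 : x ∈ Finset.univ.image (W.orderEmbOfFin rfl) := by rw [hW]; exact h2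
      obtain ⟨s, _, hs⟩ := Finset.mem_image.mp hx2
      refine ⟨s, ?_, hs⟩
      rw [← hs] at h1
      exact hmono.lt_iff_lt.mp h1
    · rintro ⟨s, h1, rfl⟩
      exact ⟨Finset.orderEmbOfFin_mem W rfl s, hmono h1⟩

end Pool.Agent.Q228.SPF.TaskUCard
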