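import Pool.Agent.Q228.SPF.Stmts

set_option autoImplicit false

open Finset
open scoped Classical

namespace Pool.Agent.Q228.SPF.TaskUnique

private noncomputable def N {n : ℕ} (a : Fin n → ℕ) (j : ℕ) : ℕ :=
  (Finset.univ.filter fun i : Fin n => a i ≤ j).card

private theorem N_le {n : ℕ} (a : Fin n → ℕ) (j : ℕ) : N a j ≤ n := by
  unfold N
  exact (Finset.card_le_univ _).trans (by simp)

private theorem N_mono {n : ℕ} (a : Fin n → ℕ) {i j : ℕ} (h : i ≤ j) : N a i ≤ N a j := by
  unfold N
  apply Finset.card_le_card
  intro x hx
  rw [Finset.mem_filter] at hx ⊢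
  exact ⟨hx.1, hx.2.trans h⟩

theorem main : Pool.Agent.Q228.SPF.TaskUnique := by
  intro n a ha
  have hex : ∃ j, 1 ≤ j ∧ N a j ≤ j := ⟨n + 1, by omega, (N_le a _).trans (by omega)⟩
  obtain ⟨j0, ⟨h1, h2⟩, hmin'⟩ : ∃ j0, (1 ≤ j0 ∧ N a j0 ≤ j0) ∧ ∀ j, j < j0 → ¬ (1 ≤ j ∧ N a j ≤ j) :=
    ⟨Nat.find hex, Nat.find_spec hex, fun j hj => Nat.find_min hex hj⟩
  have hmin : ∀ j, 1 ≤ j → j < j0 → j < N a j := by
    intro j hj hlt
    by_contra hc
    exact hmin' j hlt ⟨hj, by omega⟩
  have hmem : ∀ i, i ∈ (Finset.univ.filter fun i : Fin n => a i ≤ j0) ↔ a i ≤ j0 := by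
    intro i
    simp
  have hcard : (Finset.univ.filter fun i : Fin n => a i ≤ j0).card = j0 ∨
      ((Finset.univ.filter fun i : Fin n => a i ≤ j0).card = 0 ∧ j0 = 1) := by
    have h3 : (Finset.univ.filter fun i : Fin n => a i ≤ j0).card = N a j0 := rfl
    rw [h3]
    by_cases hj : j0 = 1
    · omega
    · left
      have h4 := hmin (j0 - 1) (by omega) (by omega)
      have h5 := N_mono a (show j0 - 1 ≤ j0 by omega)
      omega
  refine ⟨Finset.univ.filter fun i : Fin n => a i ≤ j0, ⟨⟨?_, ?_⟩, ?_⟩, ?_⟩
  · intro i hi
    rw [hmem] at hi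
    rcases hcard with hc | ⟨hc, _⟩
    · rw [hc]
      exact ⟨ha i, hi⟩
    · exfalso
      rw [Finset.card_eq_zero] at hc
      have : i ∈ (Finset.univ.filter fun i : Fin n => a i ≤ j0) := (hmem i).2 hi
      rw [hc] at this
      exact absurd this (Finset.notMem_empty i)
  · intro j hj hlt
    rcases hcard with hc | ⟨hc, _⟩
    · rw [hc] at hlt
      have h3 := hmin j hj hlt
      have h4 : N a j ≤ ((Finset.univ.filter fun i : Fin n => a i ≤ j0).filter fun i => a i ≤ j).card := by
        unfold N
        apply Finset.card_le_card
        intro x hx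
        rw [Finset.mem_filter] at hx
        rw [Finset.mem_filter, hmem]
        exact ⟨hx.2.trans hlt.le, hx.2⟩
      omega
    · omega
  · intro i hi
    rw [hmem] at hi
    rcases hcard with hc | ⟨hc, hj⟩
    · rw [hc]
      apply max_le <;> omega
    · rw [hc]
      apply max_le <;> omega
  · rintro M ⟨⟨hM1, hM2⟩, hM3⟩
    by_cases hm : M.card = 0
    · have hMe : M = ∅ := Finset.card_eq_zero.1 hm
      have hall : ∀ i, 2 ≤ a i := by
        intro i
        have := hM3 i (by rw [hMe]; exact Finset.notMem_empty i)
        exact (le_max_left _ _).trans this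
      have hj : j0 = 1 := by
        by_contra hne
        have h3 := hmin 1 le_rfl (by omega)
        have h4 : N a 1 = 0 := by
          unfold N
          rw [Finset.card_eq_zero, Finset.filter_eq_empty_iff]
          intro i _
          have := hall i
          omega
        omega
      rw [hMe]
      symm
      rw [Finset.filter_eq_empty_iff]
      intro i _
      have := hall i
      omega
    · have hM : ∀ i, i ∈ M ↔ a i ≤ M.card := by
        intro i
        constructor
        · intro hi
          exact (hM1 i hi).2
        · intro hi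
          by_contra hc
          have := (le_max_right _ _).trans (hM3 i hc)
          omega
      have hN : N a M.card = M.card := by
        unfold N
        congr 1
        ext i
        rw [Finset.mem_filter, hM]
        simp
      have hj : j0 = M.card := by
        rcases lt_trichotomy j0 M.card with hlt | heq | hgt
        · exfalso
          have h3 := hM2 j0 h1 hlt
          have h4 : (M.filter fun i => a i ≤ j0).card ≤ N a j0 := by
            unfold N
            apply Finset.card_le_card
            intro x hx
            rw [Finset.mem_filter] at hx ⊢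
            exact ⟨Finset.mem_univ x, hx.2⟩
          omega
        · exact heq
        · exfalso
          have h3 := hmin M.card (by omega) hgt
          omega
      ext i
      rw [hM, hmem, hj]

end Pool.Agent.Q228.SPF.TaskUnique
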